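import Mathlib
import Pool.Agent.TH869.LPD.Disc

/-!
Second moment of the exponential sums of the orbits `b ^ m (x + k / q)` over `k < q`.
-/

set_option autoImplicit false

open Finset

namespace Pool.Agent.Q77.Cos

open Pool.Agent.H332R2.Lit (e e_add norm_e e_zero conj_e e_nat_mul normSq_sum)

/-- exponential sum along the orbit -/
noncomputable def W (b : ℕ) (h : ℤ) (N : ℕ) (x : ℝ) : ℂ :=
  ∑ m ∈ range N, e (h * ((b : ℝ) ^ m * x))

lemma e_int (n : ℤ) : e n = 1 := by
  unfold e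
  rw [show (2 * Real.pi * ((n : ℝ) : ℂ) * Complex.I : ℂ) = n * (2 * Real.pi * Complex.I) by
    push_cast; ring]
  exact Complex.exp_int_mul_two_pi_mul_I n

lemma e_eq_one_iff (t : ℝ) : e t = 1 ↔ ∃ n : ℤ, t = n := by
  constructor
  · intro h
    unfold e at h
    rw [Complex.exp_eq_one_iff] at h
    obtain ⟨n, hn⟩ := h
    refine ⟨n, ?_⟩
    have h1 : (t : ℂ) * (2 * Real.pi * Complex.I) = n * (2 * Real.pi * Complex.I) := by
      rw [← hn]; ring
    have h2 : (t : ℂ) = n := mul_right_cancel₀ Complex.two_pi_I_ne_zero h1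
    exact_mod_cast h2
  · rintro ⟨n, rfl⟩
    exact e_int n

/-- complete sums -/
lemma complete (q : ℕ) (hq : 0 < q) (M : ℤ) :
    ∑ k ∈ range q, e (k * ((M : ℝ) / q)) = if (q : ℤ) ∣ M then (q : ℂ) else 0 := by
  have hqR : (q : ℝ) ≠ 0 := by exact_mod_cast hq.ne'
  split_ifs with hd
  · obtain ⟨c, rfl⟩ := hd
    have h1 : ∀ k ∈ range q, e (k * ((((q : ℤ) * c : ℤ) : ℝ) / q)) = 1 := by
      intro k _
      rw [e_eq_one_iff]
      refine ⟨k * c, ?_⟩
      push_cast
      field_simp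
    rw [sum_congr rfl h1]
    simp
  · have h1 : ∀ k ∈ range q, e (k * ((M : ℝ) / q)) = e ((M : ℝ) / q) ^ k := fun k _ =>
      e_nat_mul k _
    rw [sum_congr rfl h1]
    have hne : e ((M : ℝ) / q) ≠ 1 := by
      intro h
      obtain ⟨n, hn⟩ := (e_eq_one_iff _).1 h
      apply hd
      refine ⟨n, ?_⟩
      rw [div_eq_iff hqR] at hn
      have : (M : ℝ) = ((q * n : ℤ) : ℝ) := by rw [hn]; push_cast; ring
      exact_mod_cast this
    rw [geom_sum_eq hne, ← e_nat_mul, show (q : ℝ) * ((M : ℝ) / q) = ((M : ℤ) : ℝ) by field_simp,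
      e_int]
    simp

open Classical in
/-- second moment by counting -/
lemma second (b q : ℕ) (hq : 0 < q) (h : ℤ) (N : ℕ) (x : ℝ) :
    ∑ k ∈ range q, ‖W b h N (x + k / q)‖ ^ 2 ≤
      q * (((range N ×ˢ range N).filter (fun p : ℕ × ℕ =>
        (q : ℤ) ∣ h * ((b : ℤ) ^ p.1 - (b : ℤ) ^ p.2))).card : ℝ) := by
  have hqR : (q : ℝ) ≠ 0 := by exact_mod_cast hq.ne'
  have h1 : ((∑ k ∈ range q, ‖W b h N (x + k / q)‖ ^ 2 : ℝ) : ℂ) =
      ∑ m ∈ range N, ∑ l ∈ range N,
        e (h * (b : ℝ) ^ m * x - h * (b : ℝ) ^ l * x) *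
        (if (q : ℤ) ∣ h * ((b : ℤ) ^ m - (b : ℤ) ^ l) then (q : ℂ) else 0) := by
    rw [Complex.ofReal_sum]
    have h2 : ∀ k ∈ range q, ((‖W b h N (x + k / q)‖ ^ 2 : ℝ) : ℂ) =
        ∑ m ∈ range N, ∑ l ∈ range N,
          e (h * (b : ℝ) ^ m * x - h * (b : ℝ) ^ l * x) *
          e (k * (((h * ((b : ℤ) ^ m - (b : ℤ) ^ l) : ℤ) : ℝ) / q)) := by
      intro k _
      unfold W
      rw [normSq_sum]
      refine Finset.sum_congr rfl fun m _ => Finset.sum_congr rfl fun l _ => ?_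
      rw [← e_add]
      congr 1
      push_cast
      field_simp
    rw [Finset.sum_congr rfl h2, Finset.sum_comm]
    refine Finset.sum_congr rfl fun m _ => ?_
    rw [Finset.sum_comm]
    refine Finset.sum_congr rfl fun l _ => ?_
    rw [← Finset.mul_sum, complete q hq]
  have h0 : 0 ≤ ∑ k ∈ range q, ‖W b h N (x + k / q)‖ ^ 2 :=
    Finset.sum_nonneg fun m _ => by positivity
  have h3 : ∑ k ∈ range q, ‖W b h N (x + k / q)‖ ^ 2 =
      ‖((∑ k ∈ range q, ‖W b h N (x + k / q)‖ ^ 2 : ℝ) : ℂ)‖ := by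
    rw [Complex.norm_real, Real.norm_of_nonneg h0]
  rw [h3, h1]
  calc _ ≤ ∑ m ∈ range N, ∑ l ∈ range N,
        ‖e (h * (b : ℝ) ^ m * x - h * (b : ℝ) ^ l * x) *
        (if (q : ℤ) ∣ h * ((b : ℤ) ^ m - (b : ℤ) ^ l) then (q : ℂ) else 0)‖ :=
        (norm_sum_le _ _).trans (Finset.sum_le_sum fun m _ => norm_sum_le _ _)
    _ = ∑ m ∈ range N, ∑ l ∈ range N,
        (if (q : ℤ) ∣ h * ((b : ℤ) ^ m - (b : ℤ) ^ l) then (q : ℝ) else 0) := by
        refine Finset.sum_congr rfl fun m _ => Finset.sum_congr rfl fun l _ => ?_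
        rw [norm_mul, norm_e, one_mul]
        split_ifs
        · simp
        · simp
    _ = ∑ p ∈ range N ×ˢ range N,
        (if (q : ℤ) ∣ h * ((b : ℤ) ^ p.1 - (b : ℤ) ^ p.2) then (q : ℝ) else 0) := by
        rw [Finset.sum_product]
    _ = _ := by
        rw [← Finset.sum_filter, Finset.sum_const, nsmul_eq_mul]
        ring

/-- numbers below `N` in a residue class -/
lemma card_class (N o m : ℕ) :
    ((range N).filter (fun l => l ≡ m [MOD o])).card ≤ N / o + 1 := by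
  have h : ((range N).filter (fun l => l ≡ m [MOD o])).card ≤ (range (N / o + 1)).card := by
    apply card_le_card_of_injOn (fun l => l / o)
    · intro l hl
      have hl' := mem_range.1 (mem_filter.1 (mem_coe.1 hl)).1
      rw [mem_coe, mem_range]
      exact Nat.lt_succ_of_le (Nat.div_le_div_right hl'.le)
    · intro l hl l' hl' heq
      have h1 := (mem_filter.1 (mem_coe.1 hl)).2
      have h2 := (mem_filter.1 (mem_coe.1 hl')).2
      have h3 : l % o = l' % o := h1.trans h2.symm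
      have h4 : l / o = l' / o := heq
      rw [← Nat.div_add_mod l o, ← Nat.div_add_mod l' o, h3, h4]
  rwa [card_range] at h

open Classical in
/-- the number of pairs -/
lemma pairs (b q : ℕ) (hq : 0 < q) (hcop : Nat.Coprime b q) (h : ℤ) (N : ℕ) :
    (((range N ×ˢ range N).filter (fun p : ℕ × ℕ =>
        (q : ℤ) ∣ h * ((b : ℤ) ^ p.1 - (b : ℤ) ^ p.2))).card) ≤
      N * (N / orderOf (b : ZMod (q / Int.gcd h q)) + 1) := by
  set g := Int.gcd h q with hg
  set d := q / g with hd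
  have hgpos : 0 < g := Int.gcd_pos_of_ne_zero_right _ (by exact_mod_cast hq.ne')
  have hgq : g ∣ q := by
    have := Int.gcd_dvd_right h (q : ℤ)
    exact_mod_cast this
  have hdpos : 0 < d := Nat.div_pos (Nat.le_of_dvd hq hgq) hgpos
  have hdq : d ∣ q := Nat.div_dvd_of_dvd hgq
  have hcopd : Nat.Coprime b d := hcop.coprime_dvd_right hdq
  have : NeZero d := ⟨hdpos.ne'⟩
  set u := ZMod.unitOfCoprime b hcopd with hu
  have huo : orderOf (b : ZMod d) = orderOf u := by
    rw [← orderOf_units, hu, ZMod.coe_unitOfCoprime]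
  have ho : 0 < orderOf u := orderOf_pos u
  rw [huo]
  have hkey : ∀ m l : ℕ, (q : ℤ) ∣ h * ((b : ℤ) ^ m - (b : ℤ) ^ l) → l ≡ m [MOD orderOf u] := by
    intro m l hml
    rw [← pow_eq_pow_iff_modEq]
    apply Units.ext
    rw [Units.val_pow_eq_pow_val, Units.val_pow_eq_pow_val, hu, ZMod.coe_unitOfCoprime]
    have h1 : (d : ℤ) ∣ (b : ℤ) ^ m - (b : ℤ) ^ l := by
      have hco : IsCoprime ((d : ℤ)) (h / g) := by
        rw [Int.isCoprime_iff_gcd_eq_one]
        have := Int.gcd_ediv_gcd_ediv_gcd (i := h) (j := (q : ℤ)) hgpos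
        rw [Int.gcd_comm]
        have e1 : ((q : ℤ) / (g : ℤ)) = (d : ℤ) := by rw [hd]; push_cast; rfl
        rw [← e1]
        exact this
      apply hco.dvd_of_dvd_mul_left
      obtain ⟨c, hc⟩ := hml
      refine ⟨c, ?_⟩
      have hgh : (g : ℤ) ∣ h := Int.gcd_dvd_left _ _
      have hg0 : (g : ℤ) ≠ 0 := by exact_mod_cast hgpos.ne'
      have hqd : (q : ℤ) = g * d := by
        have : q = g * d := by rw [hd]; exact (Nat.mul_div_cancel' hgq).symm
        exact_mod_cast this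
      apply mul_left_cancel₀ hg0
      calc (g : ℤ) * (h / g * ((b : ℤ) ^ m - (b : ℤ) ^ l))
          = (g * (h / g)) * ((b : ℤ) ^ m - (b : ℤ) ^ l) := by ring
        _ = h * ((b : ℤ) ^ m - (b : ℤ) ^ l) := by rw [Int.mul_ediv_cancel' hgh]
        _ = q * c := hc
        _ = g * (d * c) := by rw [hqd]; ring
    have h2 : (((b : ℤ) ^ m - (b : ℤ) ^ l : ℤ) : ZMod d) = 0 := by
      rw [ZMod.intCast_zmod_eq_zero_iff_dvd]
      exact h1
    push_cast at h2
    exact (sub_eq_zero.1 h2).symm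
  calc _ ≤ ∑ m ∈ range N, ((range N).filter (fun l => l ≡ m [MOD orderOf u])).card := by
        have hsub : ((range N ×ˢ range N).filter (fun p : ℕ × ℕ =>
            (q : ℤ) ∣ h * ((b : ℤ) ^ p.1 - (b : ℤ) ^ p.2))) ⊆
            (range N).biUnion (fun m => ((range N).filter
              (fun l => l ≡ m [MOD orderOf u])).image (fun l => (m, l))) := by
          rintro ⟨m, l⟩ hp
          rw [mem_filter, mem_product] at hp
          rw [mem_biUnion]
          exact ⟨m, hp.1.1, mem_image.2 ⟨l, mem_filter.2 ⟨hp.1.2, hkey m l hp.2⟩, rfl⟩⟩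
        refine (card_le_card hsub).trans (card_biUnion_le.trans ?_)
        exact sum_le_sum fun m _ => card_image_le
    _ ≤ ∑ _m ∈ range N, (N / orderOf u + 1) := sum_le_sum fun m _ => card_class N _ m
    _ = _ := by rw [sum_const, card_range, smul_eq_mul]

/-- second moment over the shifts `k / q` -/
theorem moment (b q : ℕ) (hq : 0 < q) (hcop : Nat.Coprime b q) (c : ℝ)
    (hc : ∀ d : ℕ, d ∣ q → (d : ℝ) ≤ c * orderOf (b : ZMod d)) (h : ℤ) (N : ℕ) (x : ℝ) :
    ∑ k ∈ range q, ‖W b h N (x + k / q)‖ ^ 2 ≤ c * Int.gcd h q * (N : ℝ) ^ 2 + q * N := by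
  classical
  refine (second b q hq h N x).trans ?_
  have h1 := pairs b q hq hcop h N
  set g := Int.gcd h q with hg
  have hgpos : 0 < g := Int.gcd_pos_of_ne_zero_right _ (by exact_mod_cast hq.ne')
  have hgq : g ∣ q := by
    have := Int.gcd_dvd_right h (q : ℤ)
    exact_mod_cast this
  set d := q / g with hd
  have hdpos : 0 < d := Nat.div_pos (Nat.le_of_dvd hq hgq) hgpos
  have hdq : d ∣ q := Nat.div_dvd_of_dvd hgq
  have hcd := hc d hdq
  set o := orderOf (b : ZMod d) with ho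
  have ho0 : 0 < o := by
    rcases Nat.eq_zero_or_pos o with h0 | h0
    · rw [h0] at hcd
      simp only [Nat.cast_zero, mul_zero] at hcd
      have : (0 : ℝ) < d := by exact_mod_cast hdpos
      linarith
    · exact h0
  have hoR : (0 : ℝ) < o := by exact_mod_cast ho0
  have hqd : (q : ℝ) = g * d := by
    have : q = g * d := by rw [hd]; exact (Nat.mul_div_cancel' hgq).symm
    exact_mod_cast this
  have h2 : (((range N ×ˢ range N).filter (fun p : ℕ × ℕ =>
        (q : ℤ) ∣ h * ((b : ℤ) ^ p.1 - (b : ℤ) ^ p.2))).card : ℝ) ≤ N * ((N : ℝ) / o + 1) := by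
    refine (Nat.cast_le.2 h1).trans ?_
    push_cast
    have := @Nat.cast_div_le ℝ _ _ _ N o
    gcongr
  calc (q : ℝ) * _ ≤ q * (N * ((N : ℝ) / o + 1)) := by gcongr
    _ = (g * (d / o)) * (N : ℝ) ^ 2 + q * N := by rw [hqd]; field_simp
    _ ≤ (g * c) * (N : ℝ) ^ 2 + q * N := by
        have h3 : (d : ℝ) / o ≤ c := by rw [div_le_iff₀ hoR]; exact hcd
        gcongr
    _ = _ := by ring

end Pool.Agent.Q77.Cos
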