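import Mathlib

/-!
The order of `b` modulo the divisors of the powers of `s`, for `b` and `s` coprime.
-/

set_option autoImplicit false

namespace Pool.Agent.Q77.Cos

/-- the constant -/
def kap (b s : ℕ) : ℕ := b ^ (2 * Nat.totient s) - 1

lemma kap_pos (b s : ℕ) (hb : 2 ≤ b) (hs : 1 ≤ s) : 0 < kap b s := by
  unfold kap
  have h1 : 1 ≤ 2 * Nat.totient s := by
    have := Nat.totient_pos.2 (by omega : 0 < s)
    omega
  have h2 : b ^ 1 ≤ b ^ (2 * Nat.totient s) := Nat.pow_le_pow_right (by omega) h1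
  rw [pow_one] at h2
  omega

lemma pow_dvd_key (b s : ℕ) (hb : 2 ≤ b) (hcop : Nat.Coprime b s) (p k o : ℕ)
    (hp : p.Prime) (hps : p ∣ s) (hk : p ^ k ∣ b ^ o - 1) : p ^ k ∣ kap b s * o := by
  set B : ℤ := (b : ℤ) ^ (2 * Nat.totient s) with hB
  have hkap : ((kap b s : ℕ) : ℤ) = B - 1 := by
    unfold kap
    rw [Nat.cast_sub (Nat.one_le_pow _ _ (by omega)), hB]
    push_cast
    ring
  have hpb : ¬ p ∣ b := by
    intro h
    have : p ∣ 1 := by
      rw [← hcop]
      exact Nat.dvd_gcd h hps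
    exact hp.one_lt.ne' (Nat.dvd_one.1 this)
  have hpB : ¬ (p : ℤ) ∣ B := by
    intro h
    have h2 : (p : ℤ) ∣ b := (Nat.prime_iff_prime_int.1 hp).dvd_of_dvd_pow h
    exact hpb (by exact_mod_cast h2)
  have hsB : (s : ℤ) ∣ B - 1 := by
    have h1 := Nat.ModEq.pow_totient hcop
    have h2 : b ^ (2 * Nat.totient s) ≡ 1 [MOD s] := by
      rw [mul_comm, pow_mul]
      simpa using h1.pow 2
    have h3 := (Nat.modEq_iff_dvd.1 h2.symm)
    rw [hB]
    push_cast at h3
    exact h3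
  have hpB1 : (p : ℤ) ∣ B - 1 := (Int.natCast_dvd_natCast.2 hps).trans hsB
  have hbig : ((p : ℤ) ^ k) ∣ B ^ o - 1 := by
    have h1 : ((p : ℤ) ^ k) ∣ (b : ℤ) ^ o - 1 := by
      have h2 : ((p ^ k : ℕ) : ℤ) ∣ ((b ^ o - 1 : ℕ) : ℤ) := Int.natCast_dvd_natCast.2 hk
      rw [Nat.cast_sub (Nat.one_le_pow _ _ (by omega))] at h2
      push_cast at h2
      exact h2
    have h2 : B ^ o = ((b : ℤ) ^ o) ^ (2 * Nat.totient s) := by
      rw [hB, ← pow_mul, ← pow_mul, mul_comm]
    rw [h2]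
    refine h1.trans ?_
    have := sub_dvd_pow_sub_pow ((b : ℤ) ^ o) 1 (2 * Nat.totient s)
    rwa [one_pow] at this
  have hem : emultiplicity (p : ℤ) (B ^ o - 1) =
      emultiplicity (p : ℤ) (B - 1) + emultiplicity (p : ℤ) (o : ℤ) := by
    rcases hp.eq_two_or_odd' with h2 | hodd
    · subst h2
      have h4 : (4 : ℤ) ∣ B - 1 := by
        have hbodd : Odd b := by
          rw [← Nat.not_even_iff_odd, even_iff_two_dvd]
          exact hpb
        have h5 : (8 : ℤ) ∣ (b : ℤ) ^ 2 - 1 := by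
          have hbo : Odd (b : ℤ) := by exact_mod_cast hbodd
          have := Int.eight_dvd_sq_sub_one_of_odd hbo
          exact this
        have h6 : (b : ℤ) ^ 2 - 1 ∣ B - 1 := by
          rw [hB, pow_mul]
          have := sub_dvd_pow_sub_pow ((b : ℤ) ^ 2) 1 (Nat.totient s)
          rwa [one_pow] at this
        exact (by norm_num : (4 : ℤ) ∣ 8).trans (h5.trans h6)
      have := Int.two_pow_sub_pow' (x := B) (y := 1) o h4 (by exact_mod_cast hpB)
      rw [one_pow] at this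
      exact_mod_cast this
    · have := Int.emultiplicity_pow_sub_pow (p := p) hp hodd (x := B) (y := 1) hpB1 hpB o
      rw [one_pow] at this
      rw [this, Int.natCast_emultiplicity]
  have h1 : (k : ℕ∞) ≤ emultiplicity (p : ℤ) ((B - 1) * (o : ℤ)) := by
    rw [emultiplicity_mul (Nat.prime_iff_prime_int.1 hp), ← hem]
    exact pow_dvd_iff_le_emultiplicity.1 hbig
  have h2 := pow_dvd_iff_le_emultiplicity.2 h1
  have h3 : ((p ^ k : ℕ) : ℤ) ∣ ((kap b s * o : ℕ) : ℤ) := by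
    push_cast
    rw [hkap]
    exact h2
  exact Int.natCast_dvd_natCast.1 h3

/-- lower bound for the order -/
theorem ord_lower (b s : ℕ) (hb : 2 ≤ b) (hs : 1 ≤ s) (hcop : Nat.Coprime b s) (n d : ℕ)
    (hd : d ∣ s ^ n) : d ≤ kap b s * orderOf (b : ZMod d) := by
  have hd0 : 0 < d := Nat.pos_of_dvd_of_pos hd (Nat.pow_pos (by omega))
  have hcopd : Nat.Coprime b d := (Nat.Coprime.pow_right n hcop).coprime_dvd_right hd
  have hne : NeZero d := ⟨hd0.ne'⟩
  have ho : 0 < orderOf (b : ZMod d) := by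
    have : orderOf (b : ZMod d) = orderOf (ZMod.unitOfCoprime b hcopd) := by
      rw [← orderOf_units, ZMod.coe_unitOfCoprime]
    rw [this]
    exact orderOf_pos _
  set o := orderOf (b : ZMod d) with hodef
  apply Nat.le_of_dvd (Nat.mul_pos (kap_pos b s hb hs) ho)
  rw [Nat.dvd_iff_prime_pow_dvd_dvd]
  intro p k hp hpk
  rcases Nat.eq_zero_or_pos k with h0 | h0
  · rw [h0, pow_zero]
    exact one_dvd _
  have hps : p ∣ s := by
    have h1 : p ∣ s ^ n := (dvd_pow_self p h0.ne').trans (hpk.trans hd)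
    exact hp.dvd_of_dvd_pow h1
  refine pow_dvd_key b s hb hcop p k o hp hps (hpk.trans ?_)
  have h1 : ((b : ZMod d)) ^ o = 1 := pow_orderOf_eq_one _
  have h2 : ((b ^ o : ℕ) : ZMod d) = ((1 : ℕ) : ZMod d) := by
    push_cast
    exact h1
  have h3 := (ZMod.natCast_eq_natCast_iff _ _ _).1 h2
  exact (Nat.modEq_iff_dvd' (Nat.one_le_pow _ _ (by omega))).1 h3.symm

end Pool.Agent.Q77.Cos
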