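import Mathlib
import Pool.Agent.Q77.Cos.Core
import Pool.Agent.Q77.Cos.Ord

/-!
Boundedly many of the numbers `x + k / s ^ n` fail to be `ε`-normal up to `N`.
-/

set_option autoImplicit false

open Finset Filter

namespace Pool.Agent.Q77.Cos

open Pool.Agent.H332R2.Lit (e e_add norm_e e_zero conj_e e_nat_mul normSq_sum)

/-- the moment inequality for powers of `s` -/
theorem moment_pow (b s : ℕ) (hb : 2 ≤ b) (hs : 1 ≤ s) (hcop : Nat.Coprime b s) (n N : ℕ)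
    (hN : s ^ n ≤ N) (h : ℤ) (hh : h ≠ 0) (x : ℝ) :
    ∑ k ∈ range (s ^ n), ‖W b h N (x + k / (s : ℝ) ^ n)‖ ^ 2 ≤
      2 * kap b s * |(h : ℝ)| * (N : ℝ) ^ 2 := by
  have hq : 0 < s ^ n := Nat.pow_pos (by omega)
  have h1 := moment b (s ^ n) hq (Nat.Coprime.pow_right n hcop) (kap b s) (fun d hd => by
    exact_mod_cast ord_lower b s hb hs hcop n d hd) h N x
  have hg : ((Int.gcd h ((s ^ n : ℕ) : ℤ) : ℕ) : ℝ) ≤ |(h : ℝ)| := by
    have h2 : Int.gcd h ((s ^ n : ℕ) : ℤ) ≤ h.natAbs := by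
      apply Nat.le_of_dvd (Int.natAbs_pos.2 hh)
      exact Nat.gcd_dvd_left _ _
    have h3 : ((h.natAbs : ℕ) : ℝ) = |(h : ℝ)| := by
      rw [Nat.cast_natAbs]
      push_cast
      rfl
    rw [← h3]
    exact_mod_cast h2
  have hk : (1 : ℝ) ≤ kap b s := by exact_mod_cast kap_pos b s hb hs
  have hh1 : (1 : ℝ) ≤ |(h : ℝ)| := by
    have : 1 ≤ |h| := Int.one_le_abs hh
    exact_mod_cast this
  have hNR : ((s ^ n : ℕ) : ℝ) ≤ N := by exact_mod_cast hN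
  have hN0 : (0 : ℝ) ≤ N := Nat.cast_nonneg _
  push_cast at h1 hNR
  refine h1.trans ?_
  have h4 : (kap b s : ℝ) * (Int.gcd h ((s : ℤ) ^ n) : ℕ) * (N : ℝ) ^ 2 ≤
      kap b s * |(h : ℝ)| * (N : ℝ) ^ 2 := by
    push_cast at hg
    gcongr
  have h5 : (s : ℝ) ^ n * N ≤ kap b s * |(h : ℝ)| * (N : ℝ) ^ 2 := by
    calc (s : ℝ) ^ n * N ≤ N * N := by gcongr
      _ = 1 * 1 * (N : ℝ) ^ 2 := by ring
      _ ≤ _ := by gcongr
  linarith

/-- `ε`-normal up to `N` -/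
def EN (b : ℕ) (ε : ℝ) (N : ℕ) (y : ℝ) : Prop :=
  ∀ α β : ℝ, 0 ≤ α → α ≤ β → β ≤ 1 →
    |(((range N).filter (fun m : ℕ => α ≤ Int.fract ((b : ℝ) ^ m * y) ∧
      Int.fract ((b : ℝ) ^ m * y) < β)).card : ℝ) - (β - α) * N| ≤ ε * N

open Classical in
/-- the number of bad shifts -/
theorem bad_card (b s : ℕ) (hb : 2 ≤ b) (hs : 1 ≤ s) (hcop : Nat.Coprime b s) (n N : ℕ)
    (hN : s ^ n ≤ N) (ε : ℝ) (hε : 0 < ε) (hε1 : ε ≤ 1) (x : ℝ) :
    (((range (s ^ n)).filter (fun k : ℕ => ¬ EN b ε N (x + k / (s : ℝ) ^ n))).card : ℝ) ≤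
      16 * 729 ^ 4 * kap b s / ε ^ 14 := by
  have hNpos : 0 < N := lt_of_lt_of_le (Nat.pow_pos (by omega)) hN
  have hN0 : (0 : ℝ) < N := by exact_mod_cast hNpos
  set m : ℕ := ⌈8 / ε⌉₊ with hm
  have hm8 : 8 / ε ≤ m := Nat.le_ceil _
  have hm9 : (m : ℝ) ≤ 9 / ε := by
    have h1 := Nat.ceil_lt_add_one (by positivity : (0 : ℝ) ≤ 8 / ε)
    have h2 : 1 ≤ 1 / ε := by rw [le_div_iff₀ hε]; linarith
    have h3 : 9 / ε = 8 / ε + 1 / ε := by ring
    rw [h3]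
    linarith
  have hm1 : 1 ≤ m := by
    have : (0 : ℝ) < m := lt_of_lt_of_le (by positivity) hm8
    exact_mod_cast this
  have hmR : (0 : ℝ) < m := by exact_mod_cast hm1
  set M : ℕ := m ^ 3 with hM
  have hM1 : 1 ≤ M := Nat.one_le_pow _ _ (by omega)
  have hMR : (1 : ℝ) ≤ M := by exact_mod_cast hM1
  set S : ℝ := ε * N / (2 * M) with hS
  have hS0 : 0 < S := by rw [hS]; positivity
  set Bd : ℤ → Finset ℕ := fun h =>
    (range (s ^ n)).filter (fun k : ℕ => S < ‖W b h N (x + k / (s : ℝ) ^ n)‖) with hBd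
  set PP : Finset ℤ := (Ioo (-(M : ℤ)) (M : ℤ)).erase 0 with hPP
  have hone : ∀ h ∈ PP, ((Bd h).card : ℝ) ≤ 2 * kap b s * M * (4 * (M : ℝ) ^ 2 / ε ^ 2) := by
    intro h hh
    rw [hPP, mem_erase, mem_Ioo] at hh
    obtain ⟨hh0, hh1, hh2⟩ := hh
    have habs : |(h : ℝ)| ≤ M := by
      have : |h| < (M : ℤ) := abs_lt.2 ⟨hh1, hh2⟩
      exact_mod_cast this.le
    have h1 := moment_pow b s hb hs hcop n N hN h hh0 x
    have h2 : ((Bd h).card : ℝ) * S ^ 2 ≤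
        ∑ k ∈ range (s ^ n), ‖W b h N (x + k / (s : ℝ) ^ n)‖ ^ 2 := by
      calc ((Bd h).card : ℝ) * S ^ 2 = ∑ _k ∈ Bd h, S ^ 2 := by
            rw [Finset.sum_const, nsmul_eq_mul]
        _ ≤ ∑ k ∈ Bd h, ‖W b h N (x + k / (s : ℝ) ^ n)‖ ^ 2 := by
            refine Finset.sum_le_sum fun k hk => ?_
            have h2 := (Finset.mem_filter.1 hk).2
            exact pow_le_pow_left₀ hS0.le h2.le 2
        _ ≤ _ := Finset.sum_le_sum_of_subset_of_nonneg (Finset.filter_subset _ _)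
            fun k _ _ => by positivity
    have h3 : 2 * (kap b s : ℝ) * |(h : ℝ)| * (N : ℝ) ^ 2 ≤
        (2 * kap b s * M * (4 * (M : ℝ) ^ 2 / ε ^ 2)) * S ^ 2 := by
      have e1 : (4 * (M : ℝ) ^ 2 / ε ^ 2) * S ^ 2 = (N : ℝ) ^ 2 := by
        rw [hS]
        field_simp
        ring
      calc _ ≤ 2 * (kap b s : ℝ) * M * (N : ℝ) ^ 2 := by gcongr
        _ = _ := by rw [← e1]; ring
    exact le_of_mul_le_mul_right ((h2.trans h1).trans h3) (by positivity)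
  have hcardP : (PP.card : ℝ) ≤ 2 * M := by
    have h1 : PP.card ≤ 2 * M := by
      rw [hPP]
      refine (Finset.card_erase_le).trans ?_
      rw [Int.card_Ioo]
      omega
    exact_mod_cast h1
  have hsub : (range (s ^ n)).filter (fun k : ℕ => ¬ EN b ε N (x + k / (s : ℝ) ^ n)) ⊆
      PP.biUnion Bd := by
    intro k hk
    rw [Finset.mem_filter] at hk
    by_contra hnot
    apply hk.2
    have hgood : ∀ h : ℤ, h ≠ 0 → |h| < ((m ^ 3 : ℕ) : ℤ) →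
        ‖∑ l ∈ range N, e (h * ((b : ℝ) ^ l * (x + k / (s : ℝ) ^ n)))‖ ≤ S := by
      intro h hh0 hh1
      by_contra hcon
      push Not at hcon
      apply hnot
      rw [Finset.mem_biUnion]
      refine ⟨h, ?_, ?_⟩
      · rw [hPP, mem_erase, mem_Ioo]
        exact ⟨hh0, (abs_lt.1 hh1).1, (abs_lt.1 hh1).2⟩
      · rw [hBd, Finset.mem_filter]
        exact ⟨hk.1, hcon⟩
    intro α β hα hαβ hβ
    have h2 := Pool.Agent.TH869.LPD.disc m hm1 (fun l => (b : ℝ) ^ l * (x + k / (s : ℝ) ^ n)) N S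
        hS0.le hgood α β hα hαβ hβ
    refine h2.trans ?_
    have h3 : (m : ℝ) ^ 3 * S = ε * N / 2 := by
      have : (m : ℝ) ^ 3 = M := by rw [hM]; push_cast; ring
      rw [this, hS]
      field_simp
    have h4 : 4 * (N : ℝ) / m ≤ ε * N / 2 := by
      rw [div_le_iff₀ hmR]
      have h5 : 8 ≤ ε * m := by
        rw [div_le_iff₀ hε] at hm8
        linarith
      nlinarith
    linarith
  calc (((range (s ^ n)).filter (fun k : ℕ => ¬ EN b ε N (x + k / (s : ℝ) ^ n))).card : ℝ)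
      ≤ ((PP.biUnion Bd).card : ℝ) := by exact_mod_cast Finset.card_le_card hsub
    _ ≤ ((∑ p ∈ PP, (Bd p).card : ℕ) : ℝ) := by exact_mod_cast Finset.card_biUnion_le
    _ = ∑ p ∈ PP, ((Bd p).card : ℝ) := by push_cast; rfl
    _ ≤ ∑ _p ∈ PP, (2 * kap b s * M * (4 * (M : ℝ) ^ 2 / ε ^ 2) : ℝ) := Finset.sum_le_sum hone
    _ = PP.card * (2 * kap b s * M * (4 * (M : ℝ) ^ 2 / ε ^ 2)) := by
        rw [Finset.sum_const, nsmul_eq_mul]
    _ ≤ (2 * M) * (2 * kap b s * M * (4 * (M : ℝ) ^ 2 / ε ^ 2)) := by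
        apply mul_le_mul_of_nonneg_right hcardP
        positivity
    _ = 16 * kap b s * (M : ℝ) ^ 4 / ε ^ 2 := by ring
    _ ≤ 16 * kap b s * ((9 / ε) ^ 3) ^ 4 / ε ^ 2 := by
        have h6 : (M : ℝ) ≤ (9 / ε) ^ 3 := by
          rw [hM]
          push_cast
          gcongr
        gcongr
    _ = _ := by
        field_simp
        ring

end Pool.Agent.Q77.Cos
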