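import Mathlib
import Pool.Agent.TH869.LPS.Fej
import Pool.Agent.Q77.Cos.Bad

/-!
Boundedly many of the numbers `x + k / s ^ n` have a `b`-orbit which misses an arc up to time `N`.
-/

set_option autoImplicit false

open Finset Filter

namespace Pool.Agent.Q77.Cos

open Pool.Agent.H332R2.Lit (e e_add norm_e e_zero conj_e e_nat_mul normSq_sum norm_geom_le)
open Pool.Agent.TH869.LPS (nr sq_exp nr_zero)

/-- the points `b ^ t y`, `t < T`, are at distance at least `δ` from a point `c` modulo one -/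
def Miss (b : ℕ) (δ : ℝ) (T : ℕ) (y : ℝ) : Prop :=
  ∃ c : ℝ, ∀ t < T, ∀ k : ℤ, δ ≤ |(b : ℝ) ^ t * y - c - k|

lemma nr_le (M : ℕ) (h : ℤ) : nr M h ≤ M := by
  unfold nr
  calc _ ≤ (range M).card := by
        apply card_le_card_of_injOn (fun u => u.1)
        · intro u hu
          rw [mem_coe, mem_filter, mem_product] at hu
          exact mem_coe.2 hu.1.1
        · intro u hu v hv huv
          rw [mem_coe, mem_filter] at hu hv
          simp only at huv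
          have h1 := hu.2
          have h2 := hv.2
          ext
          · exact huv
          · omega
    _ = M := card_range M

/-- a missed arc makes some Weyl sums large -/
lemma weyl_of_miss (b : ℕ) (δ : ℝ) (hδ : 0 < δ) (N : ℕ) (y : ℝ) (hm : Miss b δ N y) (M : ℕ)
    (hM : 1 / (2 * δ ^ 2) ≤ M) :
    (N : ℝ) ^ 2 / (8 * M) ≤ ∑ h ∈ (Ioo (-(M : ℤ)) M).erase 0, ‖W b h N y‖ ^ 2 := by
  obtain ⟨c, hc⟩ := hm
  have hM0 : (0 : ℝ) < M := lt_of_lt_of_le (by positivity) hM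
  have hMn : 0 < M := by exact_mod_cast hM0
  have hN0 : (0 : ℝ) ≤ N := Nat.cast_nonneg _
  -- upper bound of the kernel
  have h1 : ∑ m ∈ range N, ‖∑ a ∈ range M, e (a * ((b : ℝ) ^ m * y - c))‖ ^ 2 ≤
      N * (M / 2) := by
    calc _ ≤ ∑ _m ∈ range N, ((M : ℝ) / 2) := by
          refine sum_le_sum fun m hm => ?_
          have h2 := norm_geom_le ((b : ℝ) ^ m * y - c) δ hδ
            (hc m (mem_range.1 hm) _) M
          calc _ ≤ (1 / (2 * δ)) ^ 2 := pow_le_pow_left₀ (norm_nonneg _) h2 2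
            _ = (1 / (2 * δ ^ 2)) / 2 := by field_simp
            _ ≤ _ := by linarith
      _ = _ := by rw [sum_const, card_range, nsmul_eq_mul]
  -- expansion
  have h2 : ((∑ m ∈ range N, ‖∑ a ∈ range M, e (a * ((b : ℝ) ^ m * y - c))‖ ^ 2 : ℝ) : ℂ) =
      ∑ h ∈ Ioo (-(M : ℤ)) M, (nr M h : ℂ) * e (-(h * c)) * W b h N y := by
    rw [Complex.ofReal_sum]
    have h3 : ∀ m ∈ range N, ((‖∑ a ∈ range M, e (a * ((b : ℝ) ^ m * y - c))‖ ^ 2 : ℝ) : ℂ) =
        ∑ h ∈ Ioo (-(M : ℤ)) M, (nr M h : ℂ) * e (-(h * c)) * e (h * ((b : ℝ) ^ m * y)) := by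
      intro m _
      rw [sq_exp]
      refine sum_congr rfl fun h _ => ?_
      rw [mul_assoc, ← e_add]
      congr 2
      ring
    rw [sum_congr rfl h3, sum_comm]
    refine sum_congr rfl fun h _ => ?_
    unfold W
    rw [mul_sum]
  have h0 : (0 : ℤ) ∈ Ioo (-(M : ℤ)) M := by rw [mem_Ioo]; omega
  rw [← add_sum_erase _ _ h0] at h2
  have h4 : (nr M 0 : ℂ) * e (-(((0 : ℤ) : ℝ) * c)) * W b 0 N y = ((M * N : ℝ) : ℂ) := by
    rw [nr_zero]
    unfold W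
    simp [e_zero]
  rw [h4] at h2
  have h5 : (M * N : ℝ) - N * (M / 2) ≤
      ‖∑ h ∈ (Ioo (-(M : ℤ)) M).erase 0, (nr M h : ℂ) * e (-(h * c)) * W b h N y‖ := by
    have h6 : ∑ h ∈ (Ioo (-(M : ℤ)) M).erase 0, (nr M h : ℂ) * e (-(h * c)) * W b h N y =
        ((∑ m ∈ range N, ‖∑ a ∈ range M, e (a * ((b : ℝ) ^ m * y - c))‖ ^ 2 - M * N : ℝ) : ℂ) := by
      rw [Complex.ofReal_sub, h2]
      ring
    rw [h6, Complex.norm_real]
    refine le_trans ?_ (neg_le_abs _)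
    linarith
  have h7 : ‖∑ h ∈ (Ioo (-(M : ℤ)) M).erase 0, (nr M h : ℂ) * e (-(h * c)) * W b h N y‖ ≤
      M * ∑ h ∈ (Ioo (-(M : ℤ)) M).erase 0, ‖W b h N y‖ := by
    refine (norm_sum_le _ _).trans ?_
    rw [mul_sum]
    refine sum_le_sum fun h _ => ?_
    rw [norm_mul, norm_mul, norm_e, Complex.norm_natCast, mul_one]
    gcongr
    exact_mod_cast nr_le M h
  have h8 : (N : ℝ) / 2 ≤ ∑ h ∈ (Ioo (-(M : ℤ)) M).erase 0, ‖W b h N y‖ := by
    have h9 : (M : ℝ) * (N / 2) ≤ M * ∑ h ∈ (Ioo (-(M : ℤ)) M).erase 0, ‖W b h N y‖ := by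
      calc (M : ℝ) * (N / 2) = (M * N : ℝ) - N * (M / 2) := by ring
        _ ≤ _ := h5.trans h7
    exact le_of_mul_le_mul_left h9 hM0
  have hcard : (((Ioo (-(M : ℤ)) M).erase 0).card : ℝ) ≤ 2 * M := by
    have h1 : ((Ioo (-(M : ℤ)) M).erase 0).card ≤ 2 * M := by
      refine (Finset.card_erase_le).trans ?_
      rw [Int.card_Ioo]
      omega
    exact_mod_cast h1
  have hcs : (∑ h ∈ (Ioo (-(M : ℤ)) M).erase 0, ‖W b h N y‖) ^ 2 ≤
      (2 * M) * ∑ h ∈ (Ioo (-(M : ℤ)) M).erase 0, ‖W b h N y‖ ^ 2 := by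
    refine (sq_sum_le_card_mul_sum_sq).trans ?_
    apply mul_le_mul_of_nonneg_right hcard
    exact sum_nonneg fun h _ => by positivity
  rw [div_le_iff₀ (by positivity)]
  have h10 : ((N : ℝ) / 2) ^ 2 ≤ (∑ h ∈ (Ioo (-(M : ℤ)) M).erase 0, ‖W b h N y‖) ^ 2 :=
    pow_le_pow_left₀ (by positivity) h8 2
  nlinarith

open Classical in
/-- the number of shifts with a missed arc -/
theorem miss_card (b s : ℕ) (hb : 2 ≤ b) (hs : 1 ≤ s) (hcop : Nat.Coprime b s) (n N : ℕ)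
    (hN : s ^ n ≤ N) (δ : ℝ) (hδ : 0 < δ) (x : ℝ) :
    (((range (s ^ n)).filter (fun k : ℕ => Miss b δ N (x + k / (s : ℝ) ^ n))).card : ℝ) ≤
      32 * kap b s / δ ^ 6 := by
  have hNpos : 0 < N := lt_of_lt_of_le (Nat.pow_pos (by omega)) hN
  have hN0 : (0 : ℝ) < N := by exact_mod_cast hNpos
  rcases le_or_gt δ (1 / 2) with hδ2 | hδ2
  swap
  · have h1 : (range (s ^ n)).filter (fun k : ℕ => Miss b δ N (x + k / (s : ℝ) ^ n)) = ∅ := by
      rw [filter_eq_empty_iff]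
      rintro k _ ⟨c, hc⟩
      have h2 := hc 0 hNpos (round ((b : ℝ) ^ 0 * (x + k / (s : ℝ) ^ n) - c))
      have h3 := abs_sub_round ((b : ℝ) ^ 0 * (x + k / (s : ℝ) ^ n) - c)
      linarith
    rw [h1, card_empty, Nat.cast_zero]
    positivity
  set M : ℕ := ⌈1 / (2 * δ ^ 2)⌉₊ with hM
  have hM1 : 1 / (2 * δ ^ 2) ≤ M := Nat.le_ceil _
  have hM0 : (0 : ℝ) < M := lt_of_lt_of_le (by positivity) hM1
  have hM2 : (M : ℝ) ≤ 1 / δ ^ 2 := by
    have h1 := Nat.ceil_lt_add_one (by positivity : (0 : ℝ) ≤ 1 / (2 * δ ^ 2))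
    have h2 : 1 ≤ 1 / (2 * δ ^ 2) := by
      rw [le_div_iff₀ (by positivity)]
      nlinarith
    have h3 : 1 / δ ^ 2 = 1 / (2 * δ ^ 2) + 1 / (2 * δ ^ 2) := by field_simp; ring
    rw [h3]
    linarith
  set PP : Finset ℤ := (Ioo (-(M : ℤ)) M).erase 0 with hPP
  set BB := (range (s ^ n)).filter (fun k : ℕ => Miss b δ N (x + k / (s : ℝ) ^ n)) with hBB
  have hcard : (PP.card : ℝ) ≤ 2 * M := by
    have h1 : PP.card ≤ 2 * M := by
      refine (Finset.card_erase_le).trans ?_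
      rw [Int.card_Ioo]
      omega
    exact_mod_cast h1
  have h1 : (BB.card : ℝ) * ((N : ℝ) ^ 2 / (8 * M)) ≤
      ∑ k ∈ BB, ∑ h ∈ PP, ‖W b h N (x + k / (s : ℝ) ^ n)‖ ^ 2 := by
    rw [← nsmul_eq_mul, ← sum_const]
    refine sum_le_sum fun k hk => ?_
    exact weyl_of_miss b δ hδ N _ (mem_filter.1 hk).2 M hM1
  have h2 : ∑ k ∈ BB, ∑ h ∈ PP, ‖W b h N (x + k / (s : ℝ) ^ n)‖ ^ 2 ≤
      (2 * M) * (2 * kap b s * M * (N : ℝ) ^ 2) := by
    rw [sum_comm]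
    calc _ ≤ ∑ h ∈ PP, (2 * kap b s * M * (N : ℝ) ^ 2 : ℝ) := by
          refine sum_le_sum fun h hh => ?_
          rw [hPP, mem_erase, mem_Ioo] at hh
          obtain ⟨hh0, hh1, hh2⟩ := hh
          have habs : |(h : ℝ)| ≤ M := by
            have : |h| < (M : ℤ) := abs_lt.2 ⟨hh1, hh2⟩
            exact_mod_cast this.le
          calc _ ≤ ∑ k ∈ range (s ^ n), ‖W b h N (x + k / (s : ℝ) ^ n)‖ ^ 2 :=
                sum_le_sum_of_subset_of_nonneg (filter_subset _ _) fun _ _ _ => by positivity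
            _ ≤ 2 * kap b s * |(h : ℝ)| * (N : ℝ) ^ 2 := moment_pow b s hb hs hcop n N hN h hh0 x
            _ ≤ _ := by gcongr
      _ = PP.card * (2 * kap b s * M * (N : ℝ) ^ 2) := by rw [sum_const, nsmul_eq_mul]
      _ ≤ _ := by gcongr
  have h3 : (BB.card : ℝ) ≤ 32 * kap b s * (M : ℝ) ^ 3 := by
    have h4 := h1.trans h2
    have h5 : (0 : ℝ) < (N : ℝ) ^ 2 / (8 * M) := by positivity
    refine le_of_mul_le_mul_right (h4.trans (le_of_eq ?_)) h5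
    field_simp
    ring
  calc (BB.card : ℝ) ≤ 32 * kap b s * (M : ℝ) ^ 3 := h3
    _ ≤ 32 * kap b s * (1 / δ ^ 2) ^ 3 := by gcongr
    _ = _ := by field_simp

end Pool.Agent.Q77.Cos
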