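import Mathlib
import Pool.Agent.Q77.Cos.Bad

/-!
All but boundedly many elements `r` of `ℤ[1/s]/ℤ` are such that `x + r` is `ε`-normal for most `N`.
-/

set_option autoImplicit false

open Finset Filter

namespace Pool.Agent.Q77.Cos

open Classical in
/-- counting over times -/
lemma density {ι : Type*} (C : ℝ) (q : ℕ) (F : Finset ι) (P : ι → ℕ → Prop)
    (hP : ∀ N, q ≤ N → ((F.filter (fun i => ¬ P i N)).card : ℝ) ≤ C) (hC : 0 ≤ C)
    (δ : ℝ) (hδ : 0 < δ)
    (hF : ∀ i ∈ F, ¬ ∃ᶠ T : ℕ in atTop, (1 - δ) * T ≤ (((range T).filter (P i)).card : ℝ)) :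
    (F.card : ℝ) ≤ C / δ := by
  rw [le_div_iff₀ hδ]
  by_contra hcon
  push Not at hcon
  have h1 : ∀ i ∈ F, ∀ᶠ T : ℕ in atTop, (((range T).filter (P i)).card : ℝ) < (1 - δ) * T := by
    intro i hi
    have := hF i hi
    rw [not_frequently] at this
    filter_upwards [this] with T hT
    push Not at hT
    exact hT
  have h2 : ∀ᶠ T : ℕ in atTop, ∀ i ∈ F, (((range T).filter (P i)).card : ℝ) < (1 - δ) * T := by
    rw [Finset.eventually_all]
    exact h1
  obtain ⟨T0, hT0⟩ := eventually_atTop.1 h2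
  obtain ⟨T1, hT1⟩ := exists_nat_gt ((q * F.card : ℝ) / (F.card * δ - C))
  set T := max T0 T1 with hT
  have hTT := hT0 T (le_max_left _ _)
  have hTq : (q * F.card : ℝ) < (F.card * δ - C) * T := by
    have h3 : (0 : ℝ) < F.card * δ - C := by linarith
    rw [div_lt_iff₀ h3] at hT1
    have h4 : (T1 : ℝ) ≤ T := by exact_mod_cast le_max_right _ _
    nlinarith
  have hlow : δ * T * F.card ≤
      ∑ i ∈ F, (((range T).filter (fun N => ¬ P i N)).card : ℝ) := by
    have h3 : ∀ i ∈ F, δ * T ≤ (((range T).filter (fun N => ¬ P i N)).card : ℝ) := by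
      intro i hi
      have h4 := hTT i hi
      have h5 := Finset.card_filter_add_card_filter_not (s := range T) (P i)
      rw [card_range] at h5
      have h6 : (((range T).filter (P i)).card : ℝ) +
          (((range T).filter (fun N => ¬ P i N)).card : ℝ) = T := by exact_mod_cast h5
      linarith
    calc δ * T * F.card = ∑ _i ∈ F, δ * T := by rw [sum_const, nsmul_eq_mul]; ring
      _ ≤ _ := sum_le_sum h3
  have hswap : ∑ i ∈ F, (((range T).filter (fun N => ¬ P i N)).card : ℝ) =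
      ∑ N ∈ range T, ((F.filter (fun i => ¬ P i N)).card : ℝ) := by
    have h3 : ∀ i ∈ F, (((range T).filter (fun N => ¬ P i N)).card : ℝ) =
        ∑ N ∈ range T, if ¬ P i N then (1 : ℝ) else 0 := by
      intro i _
      rw [card_filter]
      push_cast
      rfl
    have h4 : ∀ N ∈ range T, ((F.filter (fun i => ¬ P i N)).card : ℝ) =
        ∑ i ∈ F, if ¬ P i N then (1 : ℝ) else 0 := by
      intro i _
      rw [card_filter]
      push_cast
      rfl
    rw [sum_congr rfl h3, sum_congr rfl h4, sum_comm]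
  have hup : ∑ N ∈ range T, ((F.filter (fun i => ¬ P i N)).card : ℝ) ≤ q * F.card + C * T := by
    have h3 : ∀ N ∈ range T, ((F.filter (fun i => ¬ P i N)).card : ℝ) ≤
        (if N < q then (F.card : ℝ) else 0) + C := by
      intro N _
      split_ifs with hN
      · have : ((F.filter (fun i => ¬ P i N)).card : ℝ) ≤ F.card := by
          exact_mod_cast card_filter_le _ _
        linarith
      · have := hP N (not_lt.1 hN)
        linarith
    refine (sum_le_sum h3).trans ?_
    rw [sum_add_distrib, sum_const, card_range, nsmul_eq_mul, ← sum_filter, sum_const, nsmul_eq_mul]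
    have h4 : (((range T).filter (fun N => N < q)).card : ℝ) ≤ q := by
      have : ((range T).filter (fun N => N < q)).card ≤ (range q).card := by
        apply card_le_card
        intro N hN
        rw [mem_filter] at hN
        exact mem_range.2 hN.2
      rw [card_range] at this
      exact_mod_cast this
    have h5 : (0 : ℝ) ≤ F.card := Nat.cast_nonneg _
    nlinarith
  rw [hswap] at hlow
  nlinarith

/-- rational numbers with denominator a power of `s` -/
lemma rat_form (s : ℕ) (hs : 1 ≤ s) (F : Finset ℚ)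
    (hF : ∀ r ∈ F, 0 ≤ r ∧ r < 1 ∧ ∃ n, r.den ∣ s ^ n) :
    ∃ n : ℕ, ∀ r ∈ F, ∃ k : ℕ, k < s ^ n ∧ (r : ℚ) = k / (s : ℚ) ^ n := by
  have hs0 : (0 : ℚ) < s := by exact_mod_cast hs
  have h1 : ∀ r : ℚ, ∃ n : ℕ, r ∈ F → r.den ∣ s ^ n := by
    intro r
    by_cases hr : r ∈ F
    · obtain ⟨n, hn⟩ := (hF r hr).2.2
      exact ⟨n, fun _ => hn⟩
    · exact ⟨0, fun h => absurd h hr⟩
  choose f hf using h1
  refine ⟨F.sup f, fun r hr => ?_⟩
  have h2 : r.den ∣ s ^ (F.sup f) := (hf r hr).trans (pow_dvd_pow _ (Finset.le_sup hr))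
  obtain ⟨c, hc⟩ := h2
  have hsn : (0 : ℚ) < (s : ℚ) ^ (F.sup f) := by positivity
  have hden : (r.den : ℚ) ≠ 0 := by exact_mod_cast r.den_ne_zero
  have hval : r * (s : ℚ) ^ (F.sup f) = r.num * c := by
    have h3 : (s : ℚ) ^ (F.sup f) = r.den * c := by exact_mod_cast congrArg (Nat.cast : ℕ → ℚ) hc
    rw [h3, ← mul_assoc, Rat.mul_den_eq_num]
  have hnum : 0 ≤ r.num := Rat.num_nonneg.2 (hF r hr).1
  refine ⟨r.num.toNat * c, ?_, ?_⟩
  · have h4 : ((r.num.toNat * c : ℕ) : ℚ) = r * (s : ℚ) ^ (F.sup f) := by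
      rw [hval]
      push_cast
      congr 1
      exact_mod_cast Int.toNat_of_nonneg hnum
    have h5 : ((r.num.toNat * c : ℕ) : ℚ) < ((s ^ (F.sup f) : ℕ) : ℚ) := by
      rw [h4]
      push_cast
      have := (hF r hr).2.1
      nlinarith
    exact_mod_cast h5
  · have h4 : ((r.num.toNat * c : ℕ) : ℚ) = r * (s : ℚ) ^ (F.sup f) := by
      rw [hval]
      push_cast
      congr 1
      exact_mod_cast Int.toNat_of_nonneg hnum
    rw [h4]
    field_simp

open Classical in
/-- all bases up to `B` at once -/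
theorem bad_all (B s : ℕ) (hs : 1 ≤ s) (n N : ℕ)
    (hN : s ^ n ≤ N) (ε : ℝ) (hε : 0 < ε) (hε1 : ε ≤ 1) (x : ℝ) :
    (((range (s ^ n)).filter (fun k : ℕ => ¬ ∀ b : ℕ, 2 ≤ b → b ≤ B → b.Coprime s →
      EN b ε N (x + k / (s : ℝ) ^ n))).card : ℝ) ≤
      (∑ b ∈ range (B + 1), 16 * 729 ^ 4 * (kap b s : ℝ)) / ε ^ 14 := by
  set G : Finset ℕ := (range (B + 1)).filter (fun b => 2 ≤ b ∧ b.Coprime s) with hG
  have hsub : (range (s ^ n)).filter (fun k : ℕ => ¬ ∀ b : ℕ, 2 ≤ b → b ≤ B → b.Coprime s →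
      EN b ε N (x + k / (s : ℝ) ^ n)) ⊆
      G.biUnion (fun b => (range (s ^ n)).filter (fun k : ℕ => ¬ EN b ε N (x + k / (s : ℝ) ^ n))) := by
    intro k hk
    rw [mem_filter] at hk
    obtain ⟨hk1, hk2⟩ := hk
    push Not at hk2
    obtain ⟨b, hb1, hb2, hb3, hb4⟩ := hk2
    rw [mem_biUnion]
    refine ⟨b, ?_, mem_filter.2 ⟨hk1, hb4⟩⟩
    rw [hG, mem_filter, mem_range]
    exact ⟨by omega, hb1, hb3⟩
  calc _ ≤ ((G.biUnion (fun b => (range (s ^ n)).filter
        (fun k : ℕ => ¬ EN b ε N (x + k / (s : ℝ) ^ n)))).card : ℝ) := by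
        exact_mod_cast card_le_card hsub
    _ ≤ ∑ b ∈ G, (((range (s ^ n)).filter
        (fun k : ℕ => ¬ EN b ε N (x + k / (s : ℝ) ^ n))).card : ℝ) := by
        exact_mod_cast card_biUnion_le
    _ ≤ ∑ b ∈ G, 16 * 729 ^ 4 * (kap b s : ℝ) / ε ^ 14 := by
        refine sum_le_sum fun b hb => ?_
        rw [hG, mem_filter] at hb
        exact bad_card b s hb.2.1 hs hb.2.2 n N hN ε hε hε1 x
    _ ≤ ∑ b ∈ range (B + 1), 16 * 729 ^ 4 * (kap b s : ℝ) / ε ^ 14 := by
        apply sum_le_sum_of_subset_of_nonneg (filter_subset _ _)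
        intro b _ _
        positivity
    _ = _ := by rw [sum_div]

end Pool.Agent.Q77.Cos
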