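import Mathlib
import Pool.Agent.Q77.Cos.Arc

/-!
Numbers `x + k / a ^ L`, where the part `s` of `a` prime to `b` is not one.
-/

set_option autoImplicit false

open Finset Filter

namespace Pool.Agent.Q77.Cos

/-- the part of `a` which is prime to `b` -/
lemma decomp (b : ℕ) : ∀ a : ℕ, 1 ≤ a → ∃ s a1 w : ℕ, a = s * a1 ∧ Nat.Coprime b s ∧ a1 ∣ b ^ w := by
  intro a
  induction a using Nat.strong_induction_on with
  | _ a ih =>
    intro ha
    by_cases hc : Nat.Coprime b a
    · exact ⟨a, 1, 0, by simp, hc, by simp⟩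
    · set d := Nat.gcd b a with hd
      have hd1 : 1 < d := by
        have h0 : 0 < d := Nat.gcd_pos_of_pos_right _ ha
        rcases Nat.lt_or_ge 1 d with h | h
        · exact h
        · exact absurd (by omega : d = 1) hc
      obtain ⟨a', ha'⟩ : d ∣ a := Nat.gcd_dvd_right _ _
      have ha'pos : 0 < a' := by
        rcases Nat.eq_zero_or_pos a' with h | h
        · rw [h] at ha'; omega
        · exact h
      have hlt : a' < a := by
        rw [ha']
        nlinarith
      obtain ⟨s, a1, w, h1, h2, h3⟩ := ih a' hlt ha'pos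
      refine ⟨s, d * a1, w + 1, ?_, h2, ?_⟩
      · rw [ha', h1]; ring
      · rw [pow_succ', mul_comm d a1, mul_comm b]
        exact mul_dvd_mul h3 (Nat.gcd_dvd_left _ _)

lemma decomp_two {a b s a1 w p : ℕ} (hp : p.Prime) (hpa : p ∣ a) (hpb : ¬ p ∣ b)
    (h1 : a = s * a1) (h3 : a1 ∣ b ^ w) (ha : 1 ≤ a) : 2 ≤ s := by
  have h4 : ¬ p ∣ a1 := fun h => hpb (hp.dvd_of_dvd_pow (h.trans h3))
  rw [h1] at hpa
  have h5 : p ∣ s := (hp.dvd_mul.1 hpa).resolve_right h4
  have h6 : s ≠ 0 := by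
    rintro rfl
    rw [zero_mul] at h1
    omega
  exact hp.two_le.trans (Nat.le_of_dvd (by omega) h5)

lemma miss_mono {b : ℕ} {δ δ' : ℝ} {T T' : ℕ} {y : ℝ} (h : Miss b δ T y) (hδ : δ' ≤ δ)
    (hT : T' ≤ T) : Miss b δ' T' y := by
  obtain ⟨c, hc⟩ := h
  exact ⟨c, fun t ht k => hδ.trans (hc t (by omega) k)⟩

lemma miss_shift {b : ℕ} {δ : ℝ} {T T' : ℕ} {y : ℝ} (h : Miss b δ (T' + T) y) :
    Miss b δ T ((b : ℝ) ^ T' * y) := by
  obtain ⟨c, hc⟩ := h
  refine ⟨c, fun t ht k => ?_⟩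
  have := hc (T' + t) (by omega) k
  rwa [pow_add, mul_comm ((b : ℝ) ^ T'), mul_assoc] at this

lemma miss_int {b : ℕ} {δ : ℝ} {T : ℕ} {y : ℝ} (z : ℤ) (h : Miss b δ T (y + z)) :
    Miss b δ T y := by
  obtain ⟨c, hc⟩ := h
  refine ⟨c, fun t ht k => ?_⟩
  have := hc t ht (k + (b : ℤ) ^ t * z)
  push_cast at this
  convert this using 2
  ring

/-- counting numerators -/
theorem miss_words (a b s a1 w : ℕ) (hb : 2 ≤ b) (ha : a = s * a1) (ha1 : 1 ≤ a)
    (hcop : Nat.Coprime b s) (hw : a1 ∣ b ^ w) (L N : ℕ) (hN : s ^ L ≤ N) (δ : ℝ) (hδ : 0 < δ)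
    (x : ℝ) (K : Finset ℕ) (hK : ∀ k ∈ K, ∀ l ∈ K, k ≡ l [MOD s ^ L] → k = l)
    (hM : ∀ k ∈ K, Miss b δ (w * L + N) (x + k / (a : ℝ) ^ L)) :
    (K.card : ℝ) ≤ 32 * kap b s / δ ^ 6 := by
  classical
  have hs : 1 ≤ s := by
    rcases Nat.eq_zero_or_pos s with h | h
    · rw [h, zero_mul] at ha; omega
    · exact h
  have ha10 : 1 ≤ a1 := by
    rcases Nat.eq_zero_or_pos a1 with h | h
    · rw [h, mul_zero] at ha; omega
    · exact h
  obtain ⟨c, hc⟩ := hw
  have hcs : Nat.Coprime c s := by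
    have h1 : Nat.Coprime (b ^ w) s := Nat.Coprime.pow_left w hcop
    rw [hc] at h1
    exact Nat.Coprime.coprime_mul_left h1
  set u : ℕ := c ^ L with hu
  have hus : Nat.Coprime (s ^ L) u := by
    rw [hu]
    exact (Nat.Coprime.pow L L hcs).symm
  have hsR : (0 : ℝ) < s := by exact_mod_cast hs
  have ha1R : (0 : ℝ) < a1 := by exact_mod_cast ha10
  have haR : (a : ℝ) = s * a1 := by rw [ha]; push_cast; ring
  have hbw : (b : ℝ) ^ (w * L) = (a1 : ℝ) ^ L * u := by
    rw [pow_mul, hu]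
    have : (b : ℝ) ^ w = a1 * c := by exact_mod_cast congrArg (Nat.cast : ℕ → ℝ) hc
    rw [this, mul_pow]
    push_cast
    ring
  have hcard : K.card ≤ ((range (s ^ L)).filter (fun k : ℕ =>
      Miss b δ N ((b : ℝ) ^ (w * L) * x + k / (s : ℝ) ^ L))).card := by
    apply card_le_card_of_injOn (fun k => (k * u) % s ^ L)
    · intro k hk
      rw [mem_coe] at hk
      rw [mem_coe, mem_filter, mem_range]
      refine ⟨Nat.mod_lt _ (Nat.pow_pos hs), ?_⟩
      have h1 := miss_shift (hM k hk)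
      have h2 : (b : ℝ) ^ (w * L) * (x + k / (a : ℝ) ^ L) =
          ((b : ℝ) ^ (w * L) * x + ((k * u % s ^ L : ℕ) : ℝ) / (s : ℝ) ^ L) +
            (((k * u / s ^ L : ℕ) : ℤ) : ℝ) := by
        have h3 : ((k * u : ℕ) : ℝ) = (s : ℝ) ^ L * ((k * u / s ^ L : ℕ) : ℝ) +
            ((k * u % s ^ L : ℕ) : ℝ) := by
          have := Nat.div_add_mod (k * u) (s ^ L)
          exact_mod_cast this.symm
        have h4 : (b : ℝ) ^ (w * L) * (k / (a : ℝ) ^ L) = ((k * u : ℕ) : ℝ) / (s : ℝ) ^ L := by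
          rw [hbw, haR, mul_pow]
          push_cast
          field_simp
        rw [mul_add, h4, h3, Int.cast_natCast]
        field_simp
        ring
      rw [h2] at h1
      exact miss_int _ h1
    · intro k hk l hl hkl
      rw [mem_coe] at hk hl
      apply hK k hk l hl
      exact Nat.ModEq.cancel_right_of_coprime hus hkl
  calc (K.card : ℝ) ≤ (((range (s ^ L)).filter (fun k : ℕ =>
      Miss b δ N ((b : ℝ) ^ (w * L) * x + k / (s : ℝ) ^ L))).card : ℝ) := by exact_mod_cast hcard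
    _ ≤ _ := miss_card b s hb hs hcop L N hN δ hδ _

/-- the integer with the digits `d 0, …, d (L - 1)` in base `a` -/
def num (a : ℕ) (d : ℕ → ℕ) : ℕ → ℕ
  | 0 => 0
  | L + 1 => a * num a d L + d L

lemma num_congr (a : ℕ) (d d' : ℕ → ℕ) (L : ℕ) (h : ∀ i < L, d i = d' i) :
    num a d L = num a d' L := by
  induction L with
  | zero => rfl
  | succ L ih =>
    rw [num, num, ih fun i hi => h i (by omega), h L (by omega)]

/-- different digits give different residues -/
lemma num_inj (a s a1 : ℕ) (ha : a = s * a1) (hs : 2 ≤ s) (hcop : Nat.Coprime s a1)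
    (d d' : ℕ → ℕ) (hd : ∀ i, d i ≤ 1) (hd' : ∀ i, d' i ≤ 1) (L : ℕ)
    (h : num a d L ≡ num a d' L [MOD s ^ L]) : ∀ i < L, d i = d' i := by
  induction L with
  | zero => intro i hi; omega
  | succ L ih =>
    rw [num, num] at h
    have h1 : d L ≡ d' L [MOD s] := by
      have h2 := h.of_dvd (dvd_pow_self s (by omega : L + 1 ≠ 0))
      have h3 : ∀ k e : ℕ, a * k + e ≡ e [MOD s] := by
        intro k e
        rw [ha, mul_assoc]
        exact Nat.mul_add_mod_self_left _ _ _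
      exact ((h3 _ _).symm.trans h2).trans (h3 _ _)
    have h2 : d L = d' L := by
      have h3 := hd L
      have h4 := hd' L
      unfold Nat.ModEq at h1
      rwa [Nat.mod_eq_of_lt (by omega), Nat.mod_eq_of_lt (by omega)] at h1
    rw [h2] at h
    have h3 : a * num a d L ≡ a * num a d' L [MOD s ^ (L + 1)] := Nat.ModEq.add_right_cancel' _ h
    rw [ha, mul_assoc, mul_assoc, pow_succ'] at h3
    rw [← ha] at h3
    have h4 : a1 * num a d L ≡ a1 * num a d' L [MOD s ^ L] :=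
      Nat.ModEq.mul_left_cancel' (by omega) h3
    have h5 : num a d L ≡ num a d' L [MOD s ^ L] :=
      Nat.ModEq.cancel_left_of_coprime (Nat.Coprime.pow_left L hcop) h4
    intro i hi
    rcases Nat.lt_or_ge i L with h6 | h6
    · exact ih h5 i h6
    · rw [show i = L by omega]; exact h2

end Pool.Agent.Q77.Cos
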