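import Mathlib
import Pool.Agent.Q77.Cos.Words

/-!
Sums of the powers `a ^ (-n - 1)`, `n` in a set `A`.
-/

set_option autoImplicit false

open Finset Filter

namespace Pool.Agent.Q77.Cos

/-- the number whose digits in base `a` are `1` at the places `n + 1`, `n ∈ A`, and `0` elsewhere -/
noncomputable def zn (a : ℕ) (A : Set ℕ) : ℝ :=
  ∑' n, A.indicator (fun n : ℕ => ((a : ℝ) ^ (n + 1))⁻¹) n

open Classical in
/-- digits -/
noncomputable def ind (A : Set ℕ) (n : ℕ) : ℕ := if n ∈ A then 1 else 0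

lemma ind_le (A : Set ℕ) (n : ℕ) : ind A n ≤ 1 := by
  unfold ind
  split_ifs <;> omega

lemma term_le (a : ℕ) (ha : 2 ≤ a) (A : Set ℕ) (n : ℕ) :
    A.indicator (fun n : ℕ => ((a : ℝ) ^ (n + 1))⁻¹) n ≤ (1 / 2) ^ (n + 1) := by
  have haR : (2 : ℝ) ≤ a := by exact_mod_cast ha
  apply Set.indicator_apply_le'
  · intro _
    rw [one_div, inv_pow]
    gcongr
  · intro _
    positivity

lemma term_nonneg (a : ℕ) (A : Set ℕ) (n : ℕ) :
    0 ≤ A.indicator (fun n : ℕ => ((a : ℝ) ^ (n + 1))⁻¹) n :=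
  Set.indicator_nonneg (fun n _ => by positivity) n

lemma summable_half : Summable (fun n : ℕ => ((1 : ℝ) / 2) ^ (n + 1)) := by
  have h := summable_geometric_of_lt_one (by norm_num : (0 : ℝ) ≤ 1 / 2) (by norm_num)
  have h2 := h.mul_left (1 / 2)
  refine h2.congr fun n => ?_
  rw [pow_succ']

lemma summable_zn (a : ℕ) (ha : 2 ≤ a) (A : Set ℕ) :
    Summable (A.indicator (fun n : ℕ => ((a : ℝ) ^ (n + 1))⁻¹)) :=
  Summable.of_nonneg_of_le (term_nonneg a A) (term_le a ha A) summable_half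

lemma zn_union (a : ℕ) (ha : 2 ≤ a) (A B : Set ℕ) (h : Disjoint A B) :
    zn a (A ∪ B) = zn a A + zn a B := by
  unfold zn
  rw [← Summable.tsum_add (summable_zn a ha A) (summable_zn a ha B)]
  congr 1
  ext n
  rw [Set.indicator_union_of_disjoint h]

lemma sum_num (a : ℕ) (ha : 2 ≤ a) (A : Set ℕ) (L : ℕ) :
    ∑ i ∈ range L, A.indicator (fun n : ℕ => ((a : ℝ) ^ (n + 1))⁻¹) i =
      num a (ind A) L / (a : ℝ) ^ L := by
  have haR : (0 : ℝ) < a := by exact_mod_cast (by omega : 0 < a)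
  induction L with
  | zero => simp [num]
  | succ L ih =>
    rw [sum_range_succ, ih, num]
    by_cases h : L ∈ A
    · rw [Set.indicator_of_mem h, ind, if_pos h]
      push_cast
      field_simp
      ring
    · rw [Set.indicator_of_notMem h, ind, if_neg h]
      push_cast
      field_simp
      ring

/-- truncation -/
lemma zn_trunc (a : ℕ) (ha : 2 ≤ a) (A : Set ℕ) (L n' : ℕ) (hL : L ≤ n')
    (h : ∀ n ∈ A, n < L ∨ n' ≤ n) :
    |zn a A - num a (ind A) L / (a : ℝ) ^ L| ≤ (1 / 2) ^ n' := by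
  have h1 : zn a A = num a (ind A) L / (a : ℝ) ^ L +
      ∑' i, A.indicator (fun n : ℕ => ((a : ℝ) ^ (n + 1))⁻¹) (i + n') := by
    unfold zn
    rw [← (summable_zn a ha A).sum_add_tsum_nat_add n', ← sum_num a ha A L]
    congr 1
    symm
    apply sum_subset (range_mono hL)
    intro i hi1 hi2
    rw [mem_range] at hi1 hi2
    apply Set.indicator_of_notMem
    intro hiA
    rcases h i hiA with h | h <;> omega
  have h2 : ∑' i, A.indicator (fun n : ℕ => ((a : ℝ) ^ (n + 1))⁻¹) (i + n') ≤ (1 / 2) ^ n' := by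
    have h3 : ∑' i : ℕ, ((1 : ℝ) / 2) ^ (i + n' + 1) = (1 / 2) ^ n' := by
      have h4 : ∀ i : ℕ, ((1 : ℝ) / 2) ^ (i + n' + 1) = (1 / 2) ^ i * ((1 / 2) ^ n' * (1 / 2)) := by
        intro i
        rw [pow_succ, pow_add]
        ring
      rw [tsum_congr h4, tsum_mul_right, tsum_geometric_two]
      ring
    rw [← h3]
    apply Summable.tsum_le_tsum
    · intro i
      exact term_le a ha A (i + n')
    · exact (summable_nat_add_iff n').2 (summable_zn a ha A)
    · have := (summable_nat_add_iff n').2 summable_half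
      exact this
  have h3 : 0 ≤ ∑' i, A.indicator (fun n : ℕ => ((a : ℝ) ^ (n + 1))⁻¹) (i + n') :=
    tsum_nonneg fun i => term_nonneg a A _
  rw [h1, add_sub_cancel_left, abs_of_nonneg h3]
  exact h2

/-- a bounded set of places -/
lemma zn_fin (a : ℕ) (ha : 2 ≤ a) (A : Set ℕ) (L : ℕ) (h : ∀ n ∈ A, n < L) :
    zn a A = num a (ind A) L / (a : ℝ) ^ L := by
  unfold zn
  rw [← sum_num a ha A L]
  apply tsum_eq_sum
  intro i hi
  rw [mem_range] at hi
  apply Set.indicator_of_notMem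
  intro hiA
  exact hi (h i hiA)

/-- the orbit is at distance at least `δ` from a point, for all times -/
def MissAll (b : ℕ) (δ : ℝ) (y : ℝ) : Prop :=
  ∃ c : ℝ, ∀ t : ℕ, ∀ k : ℤ, δ ≤ |(b : ℝ) ^ t * y - c - k|

lemma MissAll.miss {b : ℕ} {δ y : ℝ} (h : MissAll b δ y) (T : ℕ) : Miss b δ T y := by
  obtain ⟨c, hc⟩ := h
  exact ⟨c, fun t _ k => hc t k⟩

/-- finitely many digits changed: the number of exceptions -/
theorem flip_card (a b s a1 w : ℕ) (hb : 2 ≤ b) (ha : a = s * a1) (ha2 : 2 ≤ a) (hs2 : 2 ≤ s)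
    (hcop : Nat.Coprime b s) (hw : a1 ∣ b ^ w) (δ : ℝ) (hδ : 0 < δ) (x : ℝ)
    (F : Finset (Set ℕ)) (hfin : ∀ A ∈ F, A.Finite) (hF : ∀ A ∈ F, MissAll b δ (x + zn a A)) :
    (F.card : ℝ) ≤ 32 * kap b s / δ ^ 6 := by
  classical
  have hcop1 : Nat.Coprime s a1 := by
    have h1 : Nat.Coprime (b ^ w) s := Nat.Coprime.pow_left w hcop
    exact (h1.coprime_dvd_left hw).symm
  -- a common bound
  have h1 : ∀ A : Set ℕ, ∃ L : ℕ, A ∈ F → ∀ n ∈ A, n < L := by
    intro A
    by_cases hA : A ∈ F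
    · obtain ⟨M, hM⟩ := (hfin A hA).bddAbove
      exact ⟨M + 1, fun _ n hn => by have := hM hn; omega⟩
    · exact ⟨0, fun h => absurd h hA⟩
  choose f hf using h1
  set L := F.sup f with hL
  have hlt : ∀ A ∈ F, ∀ n ∈ A, n < L := fun A hA n hn =>
    lt_of_lt_of_le (hf A hA n hn) (Finset.le_sup hA)
  have hinj : ∀ A ∈ F, ∀ B ∈ F, num a (ind A) L ≡ num a (ind B) L [MOD s ^ L] → A = B := by
    intro A hA B hB hAB
    have h2 := num_inj a s a1 ha hs2 hcop1 (ind A) (ind B) (ind_le A) (ind_le B) L hAB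
    ext n
    by_cases hn : n < L
    · have h3 := h2 n hn
      unfold ind at h3
      constructor
      · intro h4
        by_contra h5
        rw [if_pos h4, if_neg h5] at h3
        omega
      · intro h4
        by_contra h5
        rw [if_neg h5, if_pos h4] at h3
        omega
    · exact ⟨fun h => absurd (hlt A hA n h) hn, fun h => absurd (hlt B hB n h) hn⟩
  have h2 : F.card = (F.image (fun A => num a (ind A) L)).card := by
    rw [card_image_of_injOn]
    intro A hA B hB hAB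
    exact hinj A hA B hB (by simp only at hAB; rw [hAB])
  rw [h2]
  apply miss_words a b s a1 w hb ha (by omega) hcop hw L (s ^ L) le_rfl δ hδ x
  · intro k hk l hl hkl
    rw [mem_image] at hk hl
    obtain ⟨A, hA, rfl⟩ := hk
    obtain ⟨B, hB, rfl⟩ := hl
    rw [hinj A hA B hB hkl]
  · intro k hk
    rw [mem_image] at hk
    obtain ⟨A, hA, rfl⟩ := hk
    have h3 := (hF A hA).miss (w * L + s ^ L)
    rwa [zn_fin a ha2 A L (hlt A hA)] at h3

lemma pow_room (m s b w Q : ℕ) (hs : s ≤ m) (hb : b * w ≤ m) (hb2 : b ≤ m) (hQ : Q ≤ m) :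
    b * (w * (m + 1) + s ^ (m + 1)) + 1 + Q ≤ (m + 2) ^ (m + 2) := by
  have h1 : m ^ (m + 2) + 2 ^ (m + 2) ≤ (m + 2) ^ (m + 2) := pow_add_pow_le (Nat.zero_le _) (Nat.zero_le _) (by omega)
  have h2 : b * s ^ (m + 1) ≤ m ^ (m + 2) := by
    calc b * s ^ (m + 1) ≤ m * m ^ (m + 1) := Nat.mul_le_mul hb2 (Nat.pow_le_pow_left hs _)
      _ = m ^ (m + 2) := by ring
  have h3 : b * w * (m + 1) ≤ m * (m + 1) := Nat.mul_le_mul_right _ hb
  have h4 : m * (m + 1) + 1 + m ≤ 2 ^ (m + 2) := by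
    clear h1 h2 h3 hs hb hb2 hQ
    induction m with
    | zero => norm_num
    | succ m ih =>
      rcases Nat.lt_or_ge m 3 with h | h
      · interval_cases m <;> norm_num
      · have : 2 ^ (m + 1 + 2) = 2 * 2 ^ (m + 2) := by ring
        rw [this]
        nlinarith
  have h5 : b * (w * (m + 1) + s ^ (m + 1)) = b * w * (m + 1) + b * s ^ (m + 1) := by ring
  rw [h5]
  nlinarith

/-- arbitrary subsets of a very sparse set of places: the number of exceptions -/
theorem sparse_card (a b s a1 w : ℕ) (hb : 2 ≤ b) (ha : a = s * a1) (ha2 : 2 ≤ a) (hs2 : 2 ≤ s)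
    (hcop : Nat.Coprime b s) (hw : a1 ∣ b ^ w) (P : Set ℕ) (hP : P.Infinite)
    (hsp : ∀ m ∈ P, ∀ n ∈ P, m < n → (m + 2) ^ (m + 2) ≤ n) (δ : ℝ) (hδ : 0 < δ) (x : ℝ)
    (F : Finset (Set ℕ)) (hsub : ∀ A ∈ F, A ⊆ P) (hF : ∀ A ∈ F, MissAll b δ (x + zn a A)) :
    (F.card : ℝ) ≤ 32 * kap b s / (δ / 2) ^ 6 := by
  classical
  have hcop1 : Nat.Coprime s a1 := by
    have h1 : Nat.Coprime (b ^ w) s := Nat.Coprime.pow_left w hcop
    exact (h1.coprime_dvd_left hw).symm
  -- separating place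
  have h1 : ∀ A B : Set ℕ, ∃ n : ℕ, A ≠ B → ∃ i ≤ n, ¬ (i ∈ A ↔ i ∈ B) := by
    intro A B
    by_cases hAB : A = B
    · exact ⟨0, fun h => absurd hAB h⟩
    · have : ∃ i, ¬ (i ∈ A ↔ i ∈ B) := by
        by_contra hcon
        push Not at hcon
        exact hAB (Set.ext hcon)
      obtain ⟨i, hi⟩ := this
      exact ⟨i, fun _ => ⟨i, le_rfl, hi⟩⟩
  choose f hf using h1
  obtain ⟨Q, hQ⟩ := exists_nat_gt (1 / δ)
  have hQ2 : (1 : ℝ) / δ ≤ 2 ^ Q := by
    refine hQ.le.trans ?_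
    exact_mod_cast (Nat.lt_two_pow_self (n := Q)).le
  obtain ⟨m, hmP, hm⟩ := hP.exists_gt
    (F.sup (fun A => F.sup (fun B => f A B)) + s + b * w + b + Q)
  set L := m + 1 with hL
  set n' := (m + 2) ^ (m + 2) with hn'
  set T := w * L + s ^ L with hT
  have hLn : L ≤ n' := by
    rw [hL, hn']
    calc m + 1 ≤ (m + 2) ^ 1 := by rw [pow_one]; omega
      _ ≤ (m + 2) ^ (m + 2) := Nat.pow_le_pow_right (by omega) (by omega)
  have hroom : b * T + 1 + Q ≤ n' := by
    rw [hT, hn', hL]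
    exact pow_room m s b w Q (by omega) (by omega) (by omega) (by omega)
  have hgap : ∀ A ∈ F, ∀ n ∈ A, n < L ∨ n' ≤ n := by
    intro A hA n hn
    rcases Nat.lt_or_ge n L with h | h
    · exact Or.inl h
    · exact Or.inr (hsp m hmP n (hsub A hA hn) (by omega))
  have hinj : ∀ A ∈ F, ∀ B ∈ F, num a (ind A) L ≡ num a (ind B) L [MOD s ^ L] → A = B := by
    intro A hA B hB hAB
    have h2 := num_inj a s a1 ha hs2 hcop1 (ind A) (ind B) (ind_le A) (ind_le B) L hAB
    by_contra hne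
    obtain ⟨i, hi, hi2⟩ := hf A B hne
    have h3 : f A B ≤ F.sup (fun A => F.sup (fun B => f A B)) :=
      (Finset.le_sup (f := fun B => f A B) hB).trans
        (Finset.le_sup (f := fun A => F.sup (fun B => f A B)) hA)
    apply hi2
    have h4 := h2 i (by omega)
    unfold ind at h4
    constructor
    · intro h5
      by_contra h6
      rw [if_pos h5, if_neg h6] at h4
      omega
    · intro h5
      by_contra h6
      rw [if_neg h6, if_pos h5] at h4
      omega
  have h2 : F.card = (F.image (fun A => num a (ind A) L)).card := by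
    rw [card_image_of_injOn]
    intro A hA B hB hAB
    exact hinj A hA B hB (by simp only at hAB; rw [hAB])
  rw [h2]
  apply miss_words a b s a1 w hb ha (by omega) hcop hw L (s ^ L) le_rfl (δ / 2) (by positivity) x
  · intro k hk l hl hkl
    rw [mem_image] at hk hl
    obtain ⟨A, hA, rfl⟩ := hk
    obtain ⟨B, hB, rfl⟩ := hl
    rw [hinj A hA B hB hkl]
  · intro k hk
    rw [mem_image] at hk
    obtain ⟨A, hA, rfl⟩ := hk
    obtain ⟨c, hc⟩ := hF A hA
    refine ⟨c, fun t ht k => ?_⟩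
    have h3 := hc t k
    have h4 := zn_trunc a ha2 A L n' hLn (hgap A hA)
    have hbR : (0 : ℝ) < b := by exact_mod_cast (by omega : 0 < b)
    have h5 : (b : ℝ) ^ t ≤ 2 ^ (b * T) := by
      calc (b : ℝ) ^ t ≤ (b : ℝ) ^ T :=
            pow_le_pow_right₀ (by exact_mod_cast (by omega : 1 ≤ b)) ht.le
        _ ≤ ((2 : ℝ) ^ b) ^ T := by
            have : (b : ℝ) ≤ 2 ^ b := by exact_mod_cast (Nat.lt_two_pow_self (n := b)).le
            gcongr
        _ = 2 ^ (b * T) := by rw [← pow_mul]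
    have h6 : (b : ℝ) ^ t * (1 / 2) ^ n' ≤ δ / 2 := by
      have h7 : (2 : ℝ) ^ (b * T + 1 + Q) ≤ 2 ^ n' := pow_le_pow_right₀ (by norm_num) hroom
      have h8 : (2 : ℝ) ^ (b * T) * (2 / δ) ≤ 2 ^ n' := by
        calc (2 : ℝ) ^ (b * T) * (2 / δ) = (2 : ℝ) ^ (b * T) * 2 * (1 / δ) := by ring
          _ ≤ (2 : ℝ) ^ (b * T) * 2 * 2 ^ Q := by gcongr
          _ = (2 : ℝ) ^ (b * T + 1 + Q) := by ring
          _ ≤ _ := h7
      calc (b : ℝ) ^ t * (1 / 2) ^ n' ≤ 2 ^ (b * T) * (1 / 2) ^ n' := by gcongr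
        _ = (2 ^ (b * T) * (2 / δ)) * (δ / 2) / 2 ^ n' := by
            rw [one_div, inv_pow]
            field_simp
        _ ≤ 2 ^ n' * (δ / 2) / 2 ^ n' := by gcongr
        _ = δ / 2 := by field_simp
    have h7 : (b : ℝ) ^ t * (x + zn a A) - c - k =
        ((b : ℝ) ^ t * (x + num a (ind A) L / (a : ℝ) ^ L) - c - k) +
        (b : ℝ) ^ t * (zn a A - num a (ind A) L / (a : ℝ) ^ L) := by ring
    have h8 : |(b : ℝ) ^ t * (zn a A - num a (ind A) L / (a : ℝ) ^ L)| ≤ δ / 2 := by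
      rw [abs_mul, abs_of_pos (by positivity : (0 : ℝ) < (b : ℝ) ^ t)]
      exact (mul_le_mul_of_nonneg_left h4 (by positivity)).trans h6
    rw [h7] at h3
    have h9 := abs_add_le ((b : ℝ) ^ t * (x + num a (ind A) L / (a : ℝ) ^ L) - c - k)
      ((b : ℝ) ^ t * (zn a A - num a (ind A) L / (a : ℝ) ^ L))
    linarith

end Pool.Agent.Q77.Cos
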