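import Mathlib
import Pool.Agent.Q77.Cos.Sparse

/-!
Orbit closures: missed intervals, and dimension of orbit closures of sums.
-/

set_option autoImplicit false

open Filter Set Topology
open scoped Pointwise

namespace Pool.Agent.Q77.Cos

/-- the closure of the orbit of `r` modulo one under multiplication by `m` -/
def Orb (m : ℕ) (r : ℝ) : Set ℝ := closure (range fun n : ℕ => Int.fract ((m : ℝ) ^ n * r))

lemma orb_subset (m : ℕ) (r : ℝ) : Orb m r ⊆ Icc 0 1 := by
  apply closure_minimal _ isClosed_Icc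
  rintro _ ⟨n, rfl⟩
  exact ⟨Int.fract_nonneg _, (Int.fract_lt_one _).le⟩

lemma orb_compact (m : ℕ) (r : ℝ) : IsCompact (Orb m r) :=
  isCompact_Icc.of_isClosed_subset isClosed_closure (orb_subset m r)

lemma mem_orb (m : ℕ) (r : ℝ) (n : ℕ) : Int.fract ((m : ℝ) ^ n * r) ∈ Orb m r :=
  subset_closure ⟨n, rfl⟩

/-- a missed interval -/
lemma missAll_of_disjoint {b : ℕ} {y u δ : ℝ} (h0 : 0 ≤ u) (h1 : u + δ ≤ 1)
    (h : Disjoint (Orb b y) (Ioo u (u + δ))) : MissAll b (δ / 2) y := by
  refine ⟨u + δ / 2, fun t k => ?_⟩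
  by_contra hcon
  push Not at hcon
  rw [abs_lt] at hcon
  have h2 : Int.fract ((b : ℝ) ^ t * y) = (b : ℝ) ^ t * y - k := by
    rw [Int.fract_eq_iff]
    refine ⟨by linarith, by linarith, k, by ring⟩
  have h3 := mem_orb b y t
  rw [h2] at h3
  exact Set.disjoint_left.1 h h3 ⟨by linarith, by linarith⟩

lemma orb_eq_of_not_miss {b : ℕ} {y : ℝ} (h : ∀ δ : ℝ, 0 < δ → ¬ MissAll b δ y) :
    Orb b y = Icc 0 1 := by
  apply Subset.antisymm (orb_subset b y)
  intro v hv
  by_contra hcon
  have hopen : IsOpen (Orb b y)ᶜ := isClosed_closure.isOpen_compl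
  obtain ⟨ε, hε, hball⟩ := Metric.isOpen_iff.1 hopen v hcon
  set η : ℝ := min ε (1 / 2) / 2 with hη
  have hη0 : 0 < η := by rw [hη]; positivity
  have hη1 : 2 * η ≤ ε := by
    have := min_le_left ε (1 / 2)
    rw [hη]; linarith
  have hη2 : 2 * η ≤ 1 / 2 := by
    have := min_le_right ε (1 / 2)
    rw [hη]; linarith
  obtain ⟨hv0, hv1⟩ := hv
  have key : ∀ c : ℝ, 0 ≤ c - η → c + η ≤ 1 → v - ε ≤ c - η → c + η ≤ v + ε → MissAll b η y := by
    intro c h1 h2 h3 h4
    refine ⟨c, fun t k => ?_⟩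
    by_contra hcon2
    push Not at hcon2
    rw [abs_lt] at hcon2
    have h5 : Int.fract ((b : ℝ) ^ t * y) = (b : ℝ) ^ t * y - k := by
      rw [Int.fract_eq_iff]
      refine ⟨by linarith, by linarith, k, by ring⟩
    have h6 := mem_orb b y t
    rw [h5] at h6
    apply hball _ h6
    rw [Metric.mem_ball, Real.dist_eq, abs_lt]
    constructor <;> linarith
  rcases le_or_gt v (1 / 2) with h1 | h1
  · exact h η hη0 (key (v + η) (by linarith) (by linarith) (by linarith) (by linarith))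
  · exact h η hη0 (key (v - η) (by linarith) (by linarith) (by linarith) (by linarith))

lemma dimH_add_countable (K D : Set ℝ) (hD : D.Countable) : dimH (K + D) ≤ dimH K := by
  have h1 : K + D = ⋃ d ∈ D, (fun x => x + d) '' K := by
    ext y
    simp only [Set.mem_add, mem_iUnion, mem_image, exists_prop]
    constructor
    · rintro ⟨x, hx, d, hd, rfl⟩
      exact ⟨d, hd, x, hx, rfl⟩
    · rintro ⟨d, hd, x, hx, rfl⟩
      exact ⟨x, hx, d, hd, rfl⟩
  rw [h1, dimH_bUnion hD]
  refine iSup₂_le fun d _ => ?_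
  rw [(isometry_add_right d).dimH_image]

lemma orb_add_subset (a : ℕ) (x z : ℝ) :
    Orb a (x + z) ⊆ Orb a x + (Orb a z ∪ (fun v => v - 1) '' Orb a z) := by
  apply closure_minimal
  · rintro _ ⟨n, rfl⟩
    rw [Set.mem_add]
    refine ⟨Int.fract ((a : ℝ) ^ n * x), mem_orb a x n, ?_⟩
    simp only [mul_add]
    have h1 := Int.fract_nonneg ((a : ℝ) ^ n * x)
    have h2 := Int.fract_lt_one ((a : ℝ) ^ n * x)
    have h3 := Int.fract_nonneg ((a : ℝ) ^ n * z)
    have h4 := Int.fract_lt_one ((a : ℝ) ^ n * z)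
    have h5 := Int.floor_add_fract ((a : ℝ) ^ n * x)
    have h6 := Int.floor_add_fract ((a : ℝ) ^ n * z)
    rcases lt_or_ge (Int.fract ((a : ℝ) ^ n * x) + Int.fract ((a : ℝ) ^ n * z)) 1 with h | h
    · refine ⟨Int.fract ((a : ℝ) ^ n * z), Or.inl (mem_orb a z n), ?_⟩
      symm
      rw [Int.fract_eq_iff]
      refine ⟨by linarith, h, ⌊(a : ℝ) ^ n * x⌋ + ⌊(a : ℝ) ^ n * z⌋, ?_⟩
      push_cast
      linarith
    · refine ⟨Int.fract ((a : ℝ) ^ n * z) - 1, Or.inr ⟨_, mem_orb a z n, rfl⟩, ?_⟩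
      symm
      rw [Int.fract_eq_iff]
      refine ⟨by linarith, by linarith, ⌊(a : ℝ) ^ n * x⌋ + ⌊(a : ℝ) ^ n * z⌋ + 1, ?_⟩
      push_cast
      linarith
  · apply IsCompact.isClosed
    apply (orb_compact a x).add
    exact (orb_compact a z).union ((orb_compact a z).image (by fun_prop))

lemma orb_sub_subset (a : ℕ) (x z : ℝ) :
    Orb a x ⊆ Orb a (x + z) + ((fun v => -v) '' Orb a z ∪ (fun v => 1 - v) '' Orb a z) := by
  apply closure_minimal
  · rintro _ ⟨n, rfl⟩
    rw [Set.mem_add]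
    refine ⟨Int.fract ((a : ℝ) ^ n * (x + z)), mem_orb a (x + z) n, ?_⟩
    have h1 := Int.fract_nonneg ((a : ℝ) ^ n * (x + z))
    have h2 := Int.fract_lt_one ((a : ℝ) ^ n * (x + z))
    have h3 := Int.fract_nonneg ((a : ℝ) ^ n * z)
    have h4 := Int.fract_lt_one ((a : ℝ) ^ n * z)
    have h5 := Int.floor_add_fract ((a : ℝ) ^ n * (x + z))
    have h6 := Int.floor_add_fract ((a : ℝ) ^ n * z)
    rcases le_or_gt (Int.fract ((a : ℝ) ^ n * z)) (Int.fract ((a : ℝ) ^ n * (x + z))) with h | h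
    · refine ⟨-Int.fract ((a : ℝ) ^ n * z), Or.inl ⟨_, mem_orb a z n, rfl⟩, ?_⟩
      symm
      rw [Int.fract_eq_iff]
      refine ⟨by linarith, by linarith, ⌊(a : ℝ) ^ n * (x + z)⌋ - ⌊(a : ℝ) ^ n * z⌋, ?_⟩
      push_cast
      linarith
    · refine ⟨1 - Int.fract ((a : ℝ) ^ n * z), Or.inr ⟨_, mem_orb a z n, rfl⟩, ?_⟩
      symm
      rw [Int.fract_eq_iff]
      refine ⟨by linarith, by linarith, ⌊(a : ℝ) ^ n * (x + z)⌋ - ⌊(a : ℝ) ^ n * z⌋ - 1, ?_⟩
      push_cast
      linarith
  · apply IsCompact.isClosed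
    apply (orb_compact a (x + z)).add
    exact ((orb_compact a z).image (by fun_prop)).union ((orb_compact a z).image (by fun_prop))

theorem dimH_orb_add (a : ℕ) (x z : ℝ) (hz : (Orb a z).Countable) :
    dimH (Orb a (x + z)) = dimH (Orb a x) := by
  apply le_antisymm
  · exact (dimH_mono (orb_add_subset a x z)).trans
      (dimH_add_countable _ _ (hz.union (hz.image _)))
  · exact (dimH_mono (orb_sub_subset a x z)).trans
      (dimH_add_countable _ _ ((hz.image _).union (hz.image _)))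

lemma dimH_unit : dimH (Icc (0 : ℝ) 1) = 1 := by
  rw [Real.dimH_of_nonempty_interior]
  · simp
  · rw [interior_Icc]
    exact ⟨1 / 2, by norm_num, by norm_num⟩

/-- digits after the place `t` -/
lemma pow_mul_zn (a : ℕ) (ha : 2 ≤ a) (A : Set ℕ) (t : ℕ) :
    (a : ℝ) ^ t * zn a A = num a (ind A) t + zn a {n | n + t ∈ A} := by
  have haR : (0 : ℝ) < a := by exact_mod_cast (by omega : 0 < a)
  have h1 : zn a A = num a (ind A) t / (a : ℝ) ^ t +
      ∑' i, A.indicator (fun n : ℕ => ((a : ℝ) ^ (n + 1))⁻¹) (i + t) := by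
    unfold zn
    rw [← (summable_zn a ha A).sum_add_tsum_nat_add t, ← sum_num a ha A t]
  rw [h1, mul_add]
  congr 1
  · field_simp
  · unfold zn
    rw [← tsum_mul_left]
    congr 1
    ext i
    by_cases hi : i + t ∈ A
    · rw [Set.indicator_of_mem hi, Set.indicator_of_mem (by exact hi)]
      rw [show i + t + 1 = t + (i + 1) by ring, pow_add]
      field_simp
    · rw [Set.indicator_of_notMem hi, Set.indicator_of_notMem (by exact hi), mul_zero]

lemma zn_le_one (a : ℕ) (ha : 2 ≤ a) (A : Set ℕ) : zn a A ≤ 1 := by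
  have h := zn_trunc a ha A 0 0 le_rfl (fun n _ => Or.inr (Nat.zero_le n))
  simp only [num] at h
  have h2 := (abs_le.1 h).2
  norm_num at h2
  exact h2

lemma zn_nonneg (a : ℕ) (A : Set ℕ) : 0 ≤ zn a A := tsum_nonneg fun i => term_nonneg a A i

/-- the limit points of the orbits of sparse sums -/
def lim (a : ℕ) : Set ℝ := insert 0 (range fun n : ℕ => ((a : ℝ) ^ (n + 1))⁻¹)

lemma lim_compact (a : ℕ) (ha : 2 ≤ a) : IsCompact (lim a) := by
  have haR : (1 : ℝ) < a := by exact_mod_cast (by omega : 1 < a)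
  apply Tendsto.isCompact_insert_range
  have h1 : Tendsto (fun n : ℕ => (a : ℝ) ^ (n + 1)) atTop atTop :=
    (tendsto_pow_atTop_atTop_of_one_lt haR).comp (tendsto_add_atTop_nat 1)
  exact h1.inv_tendsto_atTop

lemma lim_countable (a : ℕ) : (lim a).Countable := (countable_range _).insert _

lemma num_zero (a : ℕ) (A : Set ℕ) (n : ℕ) (h : ∀ i < n, i ∉ A) : num a (ind A) n = 0 := by
  induction n with
  | zero => rfl
  | succ n ih =>
    rw [num, ih fun i hi => h i (by omega), ind, if_neg (h n (by omega)), mul_zero, add_zero]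

lemma infDist_zn (a : ℕ) (ha : 2 ≤ a) (A : Set ℕ) (K : ℕ)
    (h : ∀ m ∈ A, ∀ n ∈ A, m < n → K ≤ n) : Metric.infDist (zn a A) (lim a) ≤ (1 / 2) ^ K := by
  classical
  by_cases h1 : ∃ m ∈ A, m < K
  · obtain ⟨m, hm, hmK⟩ := h1
    have h2 : ∀ n ∈ A, n < m + 1 ∨ K ≤ n := by
      intro n hn
      rcases Nat.lt_or_ge n (m + 1) with h3 | h3
      · exact Or.inl h3
      · exact Or.inr (h m hm n hn (by omega))
    have h3 := zn_trunc a ha A (m + 1) K (by omega) h2
    have h4 : num a (ind A) (m + 1) = 1 := by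
      rw [num, num_zero a A m, ind, if_pos hm]
      · simp
      · intro i hi hiA
        have := h i hiA m hm hi
        omega
    rw [h4] at h3
    have h5 : ((a : ℝ) ^ (m + 1))⁻¹ ∈ lim a := Or.inr ⟨m, rfl⟩
    refine (Metric.infDist_le_dist_of_mem h5).trans ?_
    rw [Nat.cast_one, one_div] at h3
    rw [Real.dist_eq]
    exact h3
  · push Not at h1
    have h3 := zn_trunc a ha A 0 K (Nat.zero_le _) (fun n hn => Or.inr (h1 n hn))
    have h5 : (0 : ℝ) ∈ lim a := Or.inl rfl
    refine (Metric.infDist_le_dist_of_mem h5).trans ?_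
    rw [Real.dist_eq]
    simpa [num] using h3

/-- the orbit closure of a sparse sum is countable -/
theorem orb_zn_countable (a : ℕ) (ha : 2 ≤ a) (P A : Set ℕ) (hA : A ⊆ P)
    (hsp : ∀ K : ℕ, ∃ M : ℕ, ∀ m ∈ P, ∀ n ∈ P, M ≤ m → m < n → m + K ≤ n) :
    (Orb a (zn a A)).Countable := by
  set u : ℕ → ℝ := fun t => Int.fract ((a : ℝ) ^ t * zn a A) with hu
  have hlimc : IsClosed (lim a) := (lim_compact a ha).isClosed
  have hne : (lim a).Nonempty := ⟨0, Or.inl rfl⟩
  -- distance to the limit set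
  have h1 : ∀ K : ℕ, ∃ M : ℕ, ∀ t, M ≤ t → Metric.infDist (u t) (lim a) ≤ (1 / 2) ^ K := by
    intro K
    obtain ⟨M, hM⟩ := hsp K
    refine ⟨M, fun t ht => ?_⟩
    have h2 : Int.fract ((a : ℝ) ^ t * zn a A) = Int.fract (zn a {n | n + t ∈ A}) := by
      rw [pow_mul_zn a ha A t]
      rw [show ((num a (ind A) t : ℕ) : ℝ) = (((num a (ind A) t : ℕ) : ℤ) : ℝ) by simp]
      rw [Int.fract_intCast_add]
    simp only [hu]
    rw [h2]
    rcases lt_or_eq_of_le (zn_le_one a ha {n | n + t ∈ A}) with h3 | h3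
    · rw [Int.fract_eq_self.2 ⟨zn_nonneg a _, h3⟩]
      apply infDist_zn a ha
      intro m hm n hn hmn
      have := hM (m + t) (hA hm) (n + t) (hA hn) (by omega) (by omega)
      omega
    · have h4 : (0 : ℝ) ∈ lim a := Or.inl rfl
      rw [h3, Int.fract_one, Metric.infDist_zero_of_mem h4]
      positivity
  have h2 : Orb a (zn a A) ⊆ range u ∪ lim a := by
    intro v hv
    by_cases hvr : v ∈ range u
    · exact Or.inl hvr
    · right
      have h3 : ∀ K : ℕ, Metric.infDist v (lim a) ≤ (1 / 2) ^ K := by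
        intro K
        obtain ⟨M, hM⟩ := h1 K
        have h4 : range u = u '' Iio M ∪ u '' Ici M := by
          rw [← image_union, Iio_union_Ici, image_univ]
        have h5 : v ∈ closure (u '' Iio M) ∪ closure (u '' Ici M) := by
          rw [← closure_union, ← h4]
          exact hv
        rcases h5 with h5 | h5
        · rw [((finite_Iio M).image u).isClosed.closure_eq] at h5
          exact absurd (image_subset_range _ _ h5) hvr
        · have h6 : closure (u '' Ici M) ⊆ {y | Metric.infDist y (lim a) ≤ (1 / 2) ^ K} := by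
            apply closure_minimal
            · rintro _ ⟨t, ht, rfl⟩
              exact hM t ht
            · exact isClosed_le (Metric.continuous_infDist_pt _) continuous_const
          exact h6 h5
      have h4 : Metric.infDist v (lim a) ≤ 0 := by
        have h5 : Tendsto (fun K : ℕ => ((1 : ℝ) / 2) ^ K) atTop (𝓝 0) :=
          tendsto_pow_atTop_nhds_zero_of_lt_one (by norm_num) (by norm_num)
        exact ge_of_tendsto' h5 h3
      have h5 : Metric.infDist v (lim a) = 0 := le_antisymm h4 Metric.infDist_nonneg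
      rw [← hlimc.closure_eq]
      exact (Metric.mem_closure_iff_infDist_zero hne).2 h5
  exact ((countable_range u).union (lim_countable a)).mono h2

end Pool.Agent.Q77.Cos
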