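import Mathlib
import Pool.Agent.Q77.Cos.Dim

/-!
Random sets of places.
-/

set_option autoImplicit false

open Filter Set Topology MeasureTheory
open scoped ENNReal

namespace Pool.Agent.Q77.Cos

/-- one toss of a fair coin -/
noncomputable def coin : Measure Bool :=
  (2⁻¹ : ℝ≥0∞) • Measure.dirac true + (2⁻¹ : ℝ≥0∞) • Measure.dirac false

instance : IsProbabilityMeasure coin := by
  constructor
  unfold coin
  simp [ENNReal.inv_two_add_inv_two]

lemma coin_not : coin.map (fun i => !i) = coin := by
  unfold coin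
  have hm : Measurable (fun i : Bool => !i) := measurable_of_countable _
  rw [Measure.map_add _ _ hm, Measure.map_smul, Measure.map_smul,
    Measure.map_dirac' hm, Measure.map_dirac' hm, add_comm]
  rfl

/-- independent tosses -/
noncomputable def coins : Measure (ℕ → Bool) := Measure.infinitePi fun _ => coin

instance : IsProbabilityMeasure coins := by
  unfold coins
  infer_instance

/-- changing the coordinates in `U` -/
def flip (U : Finset ℕ) (ω : ℕ → Bool) : ℕ → Bool := fun i => if i ∈ U then !(ω i) else ω i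

lemma flip_meas (U : Finset ℕ) : Measurable (flip U) := by
  rw [measurable_pi_iff]
  intro i
  unfold flip
  by_cases h : i ∈ U
  · simp only [h, if_true]
    exact (measurable_of_countable (fun c : Bool => !c)).comp
      (measurable_pi_apply (X := fun _ : ℕ => Bool) i)
  · simp only [h, if_false]
    exact measurable_pi_apply (X := fun _ : ℕ => Bool) i

lemma flip_map (U : Finset ℕ) : coins.map (flip U) = coins := by
  have h := Measure.infinitePi_map_pi (X := fun _ : ℕ => Bool) (Y := fun _ : ℕ => Bool)
    (μ := fun _ : ℕ => coin)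
    (f := fun i : ℕ => fun c : Bool => if i ∈ U then !c else c) (fun i => measurable_of_countable _)
  unfold coins
  have h2 : (fun ω : ℕ → Bool => fun i => if i ∈ U then !(ω i) else ω i) = flip U := rfl
  rw [← h2, h]
  congr 1
  ext1 i
  by_cases hi : i ∈ U
  · simp only [hi, if_true]
    exact coin_not
  · simp only [hi, if_false]
    exact Measure.map_id

open Classical in
/-- a set with boundedly many elements in every class of finite changes is null -/
theorem null_of_flips (P : Set ℕ) (hP : P.Infinite) (E : Set (ℕ → Bool)) (hE : MeasurableSet E)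
    (K : ℕ) (h : ∀ V : Finset ℕ, (V : Set ℕ) ⊆ P → ∀ ω : ℕ → Bool,
      (V.powerset.filter (fun U => flip U ω ∈ E)).card ≤ K) : coins E = 0 := by
  have key : ∀ m : ℕ, (2 : ℝ≥0∞) ^ m * coins E ≤ K := by
    intro m
    obtain ⟨V, hV, hVm⟩ := hP.exists_subset_card_eq m
    have h1 : ∑ U ∈ V.powerset, coins (flip U ⁻¹' E) = (2 : ℝ≥0∞) ^ m * coins E := by
      have h2 : ∀ U ∈ V.powerset, coins (flip U ⁻¹' E) = coins E := by
        intro U _
        rw [← Measure.map_apply (flip_meas U) hE, flip_map]
      rw [Finset.sum_congr rfl h2, Finset.sum_const, Finset.card_powerset, hVm, nsmul_eq_mul]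
      push_cast
      rfl
    rw [← h1]
    have h3 : ∀ U ∈ V.powerset, coins (flip U ⁻¹' E) =
        ∫⁻ ω, (flip U ⁻¹' E).indicator (fun _ => (1 : ℝ≥0∞)) ω ∂coins := by
      intro U _
      rw [lintegral_indicator (flip_meas U hE)]
      simp
    rw [Finset.sum_congr rfl h3, ← lintegral_finsetSum]
    · calc _ ≤ ∫⁻ _ω : ℕ → Bool, (K : ℝ≥0∞) ∂coins := by
            apply lintegral_mono
            intro ω
            have h4 := h V hV ω
            have h5 : ∑ U ∈ V.powerset, (flip U ⁻¹' E).indicator (fun _ => (1 : ℝ≥0∞)) ω =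
                ((V.powerset.filter (fun U => flip U ω ∈ E)).card : ℝ≥0∞) := by
              rw [Finset.card_filter]
              push_cast
              refine Finset.sum_congr rfl fun U _ => ?_
              simp only [Set.indicator_apply, Set.mem_preimage]
            simp only
            rw [h5]
            exact_mod_cast h4
        _ = K := by simp
    · intro U _
      exact measurable_const.indicator (flip_meas U hE)
  by_contra hne
  have hpos : 0 < coins E := pos_iff_ne_zero.2 hne
  have hfin : coins E ≠ ∞ := measure_ne_top _ _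
  obtain ⟨m, hm⟩ := ENNReal.exists_nat_mul_gt hne (ENNReal.natCast_ne_top K)
  have h1 := key m
  have h2 : (m : ℝ≥0∞) ≤ 2 ^ m := by exact_mod_cast (Nat.lt_two_pow_self (n := m)).le
  have h3 : (m : ℝ≥0∞) * coins E ≤ K := (mul_le_mul_left h2 _).trans h1
  exact absurd hm (not_lt.2 h3)

/-- the set of places -/
def places (P : Set ℕ) (ω : ℕ → Bool) : Set ℕ := {n | n ∈ P ∧ ω n = true}

lemma cont_zn (a : ℕ) (ha : 2 ≤ a) (P : Set ℕ) :
    Continuous fun ω : ℕ → Bool => zn a (places P ω) := by
  unfold zn
  apply continuous_tsum (u := fun n : ℕ => ((1 : ℝ) / 2) ^ (n + 1)) _ summable_half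
  · intro n ω
    rw [Real.norm_of_nonneg (term_nonneg a _ n)]
    exact term_le a ha _ n
  · intro n
    by_cases hn : n ∈ P
    · have h1 : (fun ω : ℕ → Bool =>
          (places P ω).indicator (fun n : ℕ => ((a : ℝ) ^ (n + 1))⁻¹) n) =
          (fun c : Bool => if c = true then ((a : ℝ) ^ (n + 1))⁻¹ else 0) ∘ (fun ω => ω n) := by
        ext ω
        simp only [Function.comp]
        by_cases hω : ω n = true
        · rw [Set.indicator_of_mem (show n ∈ places P ω from ⟨hn, hω⟩), if_pos hω]
        · rw [Set.indicator_of_notMem (fun h => hω h.2), if_neg hω]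
      rw [h1]
      exact continuous_of_discreteTopology.comp (continuous_apply n)
    · have h1 : (fun ω : ℕ → Bool =>
          (places P ω).indicator (fun n : ℕ => ((a : ℝ) ^ (n + 1))⁻¹) n) = fun _ => 0 := by
        ext ω
        apply Set.indicator_of_notMem
        exact fun h => hn h.1
      rw [h1]
      exact continuous_const

lemma missAll_real {b : ℕ} {y δ : ℝ} (hδ : 0 < δ) (h : MissAll b δ y) :
    ∃ c : ℚ, ∀ t : ℕ, ∀ k : ℤ, δ / 2 ≤ |(b : ℝ) ^ t * y - c - k| := by
  obtain ⟨c, hc⟩ := h
  obtain ⟨q, hq1, hq2⟩ := exists_rat_btwn (by linarith : c < c + δ / 2)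
  refine ⟨q, fun t k => ?_⟩
  have h1 := hc t k
  have h2 : (b : ℝ) ^ t * y - c - k = ((b : ℝ) ^ t * y - q - k) + (q - c) := by ring
  have h3 := abs_add_le ((b : ℝ) ^ t * y - q - k) (q - c)
  rw [← h2] at h3
  have h4 : |(q : ℝ) - c| ≤ δ / 2 := by
    rw [abs_le]; constructor <;> linarith
  linarith

open Classical in
/-- random digits -/
theorem random_dense (a b : ℕ) (ha : 2 ≤ a) (hb : 2 ≤ b)
    (hp : ∃ p : ℕ, p.Prime ∧ p ∣ a ∧ ¬ p ∣ b) (P : Set ℕ) (hP : P.Infinite) (x : ℝ) :
    ∀ᵐ ω ∂coins, Orb b (x + zn a (places P ω)) = Icc 0 1 := by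
  obtain ⟨p, hp1, hp2, hp3⟩ := hp
  obtain ⟨s, a1, w, h1, h2, h3⟩ := decomp b a (by omega)
  have hs2 : 2 ≤ s := decomp_two hp1 hp2 hp3 h1 h3 (by omega)
  set E : ℚ → ℕ → Set (ℕ → Bool) := fun c j =>
    {ω | ∀ t : ℕ, ∀ k : ℤ, 1 / ((j : ℝ) + 1) ≤ |(b : ℝ) ^ t * (x + zn a (places P ω)) - c - k|}
    with hE
  have hmeas : ∀ c j, MeasurableSet (E c j) := by
    intro c j
    have h4 : E c j = ⋂ t : ℕ, ⋂ k : ℤ, {ω | 1 / ((j : ℝ) + 1) ≤
        |(b : ℝ) ^ t * (x + zn a (places P ω)) - c - k|} := by
      ext ω
      simp only [hE, mem_ofPred_eq, mem_iInter]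
    rw [h4]
    refine MeasurableSet.iInter fun t => MeasurableSet.iInter fun k => ?_
    apply IsClosed.measurableSet
    have := cont_zn a ha P
    exact isClosed_le continuous_const (by fun_prop)
  have hnull : ∀ c j, coins (E c j) = 0 := by
    intro c j
    have hδ : (0 : ℝ) < 1 / ((j : ℝ) + 1) := by positivity
    refine null_of_flips P hP (E c j) (hmeas c j) ⌈32 * (kap b s : ℝ) / (1 / ((j : ℝ) + 1)) ^ 6⌉₊
      fun V hV ω => ?_
    set D : Finset ℕ → Set ℕ := fun U => {n | n ∈ V ∧ flip U ω n = true} with hD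
    have hsplit : ∀ U ∈ V.powerset, zn a (places P (flip U ω)) =
        zn a (places P ω \ V) + zn a (D U) := by
      intro U hU
      rw [Finset.mem_powerset] at hU
      rw [← zn_union a ha]
      · congr 1
        ext n
        simp only [places, hD, mem_ofPred_eq, mem_union, Set.mem_sdiff, Finset.mem_coe]
        by_cases hn : n ∈ V
        · simp only [hn, true_and, not_true, and_false, false_or]
          exact ⟨fun h => h.2, fun h => ⟨hV hn, h⟩⟩
        · have h5 : n ∉ U := fun h => hn (hU h)
          simp only [hn, flip, h5, if_false, not_false_eq_true, and_true, false_and, or_false]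
      · rw [Set.disjoint_left]
        rintro n ⟨-, h5⟩ ⟨h6, -⟩
        exact h5 h6
    have hinj : Set.InjOn D (V.powerset.filter (fun U => flip U ω ∈ E c j) : Finset (Finset ℕ)) := by
      intro U hU U' hU' hUU
      rw [Finset.mem_coe, Finset.mem_filter, Finset.mem_powerset] at hU hU'
      ext n
      by_cases hn : n ∈ V
      · have h5 := Set.ext_iff.1 hUU n
        simp only [hD, mem_ofPred_eq, hn, true_and, flip] at h5
        by_cases h6 : n ∈ U <;> by_cases h7 : n ∈ U' <;> simp [h6, h7] at h5 ⊢
      · exact ⟨fun h => absurd (hU.1 h) hn, fun h => absurd (hU'.1 h) hn⟩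
    have h5 : (V.powerset.filter (fun U => flip U ω ∈ E c j)).card =
        ((V.powerset.filter (fun U => flip U ω ∈ E c j)).image D).card := by
      rw [Finset.card_image_of_injOn hinj]
    rw [h5]
    have h6 := flip_card a b s a1 w hb h1 ha hs2 h2 h3 (1 / ((j : ℝ) + 1)) hδ
      (x + zn a (places P ω \ V)) ((V.powerset.filter (fun U => flip U ω ∈ E c j)).image D)
      (by
        intro A hA
        rw [Finset.mem_image] at hA
        obtain ⟨U, hU, rfl⟩ := hA
        exact V.finite_toSet.subset fun n hn => hn.1)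
      (by
        intro A hA
        rw [Finset.mem_image] at hA
        obtain ⟨U, hU, rfl⟩ := hA
        rw [Finset.mem_filter] at hU
        refine ⟨c, ?_⟩
        have h7 := hU.2
        simp only [hE, mem_ofPred_eq] at h7
        rw [hsplit U hU.1, ← add_assoc] at h7
        exact h7)
    have h7 := h6.trans (Nat.le_ceil _)
    exact_mod_cast h7
  have hall : ∀ᵐ ω ∂coins, ∀ c : ℚ, ∀ j : ℕ, ω ∉ E c j := by
    rw [ae_all_iff]
    intro c
    rw [ae_all_iff]
    intro j
    rw [ae_iff]
    simpa using hnull c j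
  filter_upwards [hall] with ω hω
  apply orb_eq_of_not_miss
  intro δ hδ hmiss
  obtain ⟨c, hc⟩ := missAll_real hδ hmiss
  obtain ⟨j, hj⟩ := exists_nat_one_div_lt (by positivity : 0 < δ / 2)
  apply hω c j
  intro t k
  exact hj.le.trans (hc t k)

end Pool.Agent.Q77.Cos
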